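import Pool.Agent.R612.CO.Fml

/-!
Classes of definable sets of expansions of the group of integers.
-/

set_option autoImplicit false

namespace Pool.Agent.R612.IS

open FirstOrder FirstOrder.Language Pool.Agent.R612.CO

/-- classes of subsets of the powers of `ℤ` closed under first-order definitions with parameters,
containing the graph of addition -/
structure DClass (𝒟 : ∀ ι : Type, Set (ι → ℤ) → Prop) : Prop where
  compl : ∀ {ι : Type} {s : Set (ι → ℤ)}, 𝒟 ι s → 𝒟 ι sᶜ
  inter : ∀ {ι : Type} {s t : Set (ι → ℤ)}, 𝒟 ι s → 𝒟 ι t → 𝒟 ι (s ∩ t)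
  reindex : ∀ {ι κ : Type} (e : ι → κ) {s : Set (ι → ℤ)}, 𝒟 ι s → 𝒟 κ {y | y ∘ e ∈ s}
  proj : ∀ {ι κ : Type} [Finite ι] [Finite κ] (e : ι → κ) {s : Set (κ → ℤ)}, 𝒟 κ s →
    𝒟 ι ((fun y => y ∘ e) '' s)
  const : ∀ c : ℤ, 𝒟 Unit {x | x () = c}
  add : 𝒟 (Fin 3) {x | x 0 + x 1 = x 2}

variable {𝒟 : ∀ ι : Type, Set (ι → ℤ) → Prop}

theorem DClass.union (h : DClass 𝒟) {ι : Type} {s t : Set (ι → ℤ)} (hs : 𝒟 ι s) (ht : 𝒟 ι t) :
    𝒟 ι (s ∪ t) := by
  have := h.compl (h.inter (h.compl hs) (h.compl ht))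
  rwa [Set.compl_inter, compl_compl, compl_compl] at this

theorem DClass.univ (h : DClass 𝒟) {ι : Type} [Finite ι] : 𝒟 ι Set.univ := by
  have h1 := h.reindex (fun x : Unit => (Sum.inr x : ι ⊕ Unit)) (h.const 0)
  have h2 := h.union h1 (h.compl h1)
  rw [Set.union_compl_self] at h2
  have h3 := h.proj (fun i : ι => (Sum.inl i : ι ⊕ Unit)) h2
  convert h3 using 1
  ext x
  simp only [Set.image_univ, Set.mem_univ, Set.mem_range, true_iff]
  exact ⟨Sum.elim x fun _ => 0, by ext i; rfl⟩

theorem DClass.empty (h : DClass 𝒟) {ι : Type} [Finite ι] : 𝒟 ι ∅ := by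
  have := h.compl (h.univ (ι := ι))
  rwa [Set.compl_univ] at this

theorem DClass.biInter (h : DClass 𝒟) {ι : Type} [Finite ι] {X : Type} (t : Finset X)
    {s : X → Set (ι → ℤ)} (hs : ∀ x ∈ t, 𝒟 ι (s x)) : 𝒟 ι {y | ∀ x ∈ t, y ∈ s x} := by
  classical
  induction t using Finset.induction_on with
  | empty =>
    have := h.univ (ι := ι)
    convert this using 1
    ext y
    simp
  | insert a t ha ih =>
    have := h.inter (hs a (Finset.mem_insert_self _ _))
      (ih fun x hx => hs x (Finset.mem_insert_of_mem hx))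
    convert this using 1
    ext y
    simp

theorem DClass.biUnion (h : DClass 𝒟) {ι : Type} [Finite ι] {X : Type} (t : Finset X)
    {s : X → Set (ι → ℤ)} (hs : ∀ x ∈ t, 𝒟 ι (s x)) : 𝒟 ι {y | ∃ x ∈ t, y ∈ s x} := by
  have := h.compl (h.biInter t (s := fun x => (s x)ᶜ) fun x hx => h.compl (hs x hx))
  convert this using 1
  ext y
  simp

theorem DClass.iInter (h : DClass 𝒟) {ι : Type} [Finite ι] {X : Type} [Finite X]
    {s : X → Set (ι → ℤ)} (hs : ∀ x, 𝒟 ι (s x)) : 𝒟 ι {y | ∀ x, y ∈ s x} := by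
  have := Fintype.ofFinite X
  have := h.biInter Finset.univ (s := s) fun x _ => hs x
  convert this using 1
  ext y
  simp

/-- definable functions -/
def DFun (𝒟 : ∀ ι : Type, Set (ι → ℤ) → Prop) {κ : Type} (p : (κ → ℤ) → ℤ) : Prop :=
  𝒟 (Option κ) {w | w none = p fun k => w (some k)}

theorem DClass.subst (h : DClass 𝒟) {ι κ : Type} [Finite ι] [Finite κ] {s : Set (ι → ℤ)}
    (hs : 𝒟 ι s) {p : ι → (κ → ℤ) → ℤ} (hp : ∀ i, DFun 𝒟 (p i)) :
    𝒟 κ {y | (fun i => p i y) ∈ s} := by
  have h1 := h.reindex (fun i : ι => (Sum.inr i : κ ⊕ ι)) hs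
  have h2 := h.iInter (s := fun i : ι => {w : κ ⊕ ι → ℤ |
    w ∘ (fun o : Option κ => o.elim (Sum.inr i) Sum.inl) ∈
      {w : Option κ → ℤ | w none = p i fun k => w (some k)}}) fun i => h.reindex _ (hp i)
  have h3 := h.proj (fun k : κ => (Sum.inl k : κ ⊕ ι)) (h.inter h1 h2)
  convert h3 using 1
  ext y
  constructor
  · intro hy
    exact ⟨Sum.elim y fun i => p i y, ⟨hy, fun i => rfl⟩, rfl⟩
  · rintro ⟨w, ⟨hw1, hw2⟩, rfl⟩
    have : (fun i => p i fun k => w (Sum.inl k)) = w ∘ Sum.inr := by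
      funext i
      exact (hw2 i).symm
    show (fun i => p i fun k => w (Sum.inl k)) ∈ s
    rw [this]
    exact hw1

theorem DClass.dfun_const (h : DClass 𝒟) {κ : Type} (c : ℤ) :
    DFun 𝒟 (fun _ : κ → ℤ => c) :=
  h.reindex (fun _ : Unit => (none : Option κ)) (h.const c)

theorem DClass.eq (h : DClass 𝒟) : 𝒟 (Fin 2) {x | x 0 = x 1} := by
  have h1 := h.reindex (fun _ : Unit => (1 : Fin 3)) (h.const 0)
  have h2 := h.proj ![(0 : Fin 3), 2] (h.inter h.add h1)
  convert h2 using 1
  ext y
  constructor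
  · intro hy
    refine ⟨![y 0, 0, y 1], ⟨?_, rfl⟩, ?_⟩
    · show y 0 + 0 = y 1
      rw [add_zero]
      exact hy
    · funext i
      fin_cases i <;> rfl
  · rintro ⟨w, ⟨hw1, hw2⟩, rfl⟩
    have hw1' : w 0 + w 1 = w 2 := hw1
    have hw2' : w 1 = 0 := hw2
    show w 0 = w 2
    rw [← hw1', hw2', add_zero]

theorem DClass.dfun_var (h : DClass 𝒟) {κ : Type} (k : κ) :
    DFun 𝒟 (fun x : κ → ℤ => x k) :=
  h.reindex (κ := Option κ) ![none, some k] h.eq

theorem DFun.lift (h : DClass 𝒟) {κ : Type} {p : (κ → ℤ) → ℤ} (hp : DFun 𝒟 p) :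
    DFun 𝒟 (fun w : Option κ → ℤ => p fun k => w (some k)) :=
  h.reindex (fun o : Option κ => o.elim none fun k => some (some k)) hp

theorem DFun.add (h : DClass 𝒟) {κ : Type} [Finite κ] {p q : (κ → ℤ) → ℤ} (hp : DFun 𝒟 p)
    (hq : DFun 𝒟 q) : DFun 𝒟 (fun x => p x + q x) := by
  have := h.subst (κ := Option κ) h.add (p := ![fun w => p fun k => w (some k),
    fun w => q fun k => w (some k), fun w => w none]) (by
      intro i
      fin_cases i
      · exact hp.lift h
      · exact hq.lift h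
      · exact h.dfun_var none)
  show 𝒟 _ _
  convert this using 1
  ext w
  exact eq_comm

theorem DFun.neg (h : DClass 𝒟) {κ : Type} [Finite κ] {p : (κ → ℤ) → ℤ} (hp : DFun 𝒟 p) :
    DFun 𝒟 (fun x => - p x) := by
  have := h.subst (κ := Option κ) h.add (p := ![fun w => p fun k => w (some k),
    fun w => w none, fun _ => 0]) (by
      intro i
      fin_cases i
      · exact hp.lift h
      · exact h.dfun_var none
      · exact h.dfun_const 0)
  show 𝒟 _ _
  convert this using 1
  ext w
  show w none = - p _ ↔ p _ + w none = 0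
  constructor
  · intro hw
    rw [hw]
    ring
  · intro hw
    linarith

theorem DFun.nsmul (h : DClass 𝒟) {κ : Type} [Finite κ] {p : (κ → ℤ) → ℤ} (hp : DFun 𝒟 p)
    (n : ℕ) : DFun 𝒟 (fun x => n * p x) := by
  induction n with
  | zero =>
    have := h.dfun_const (κ := κ) 0
    convert this using 2
    simp
  | succ n ih =>
    have := ih.add h hp
    convert this using 2
    push_cast
    ring

theorem DFun.zsmul (h : DClass 𝒟) {κ : Type} [Finite κ] {p : (κ → ℤ) → ℤ} (hp : DFun 𝒟 p)
    (n : ℤ) : DFun 𝒟 (fun x => n * p x) := by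
  obtain ⟨n, rfl | rfl⟩ := n.eq_nat_or_neg
  · exact hp.nsmul h n
  · have := (hp.nsmul h n).neg h
    convert this using 2
    ring

theorem DFun.sum (h : DClass 𝒟) {κ : Type} [Finite κ] {X : Type} (t : Finset X)
    {p : X → (κ → ℤ) → ℤ} (hp : ∀ x, DFun 𝒟 (p x)) : DFun 𝒟 (fun y => ∑ x ∈ t, p x y) := by
  classical
  induction t using Finset.induction_on with
  | empty =>
    have := h.dfun_const (κ := κ) 0
    convert this using 2
    simp
  | insert a t ha ih =>
    have := (hp a).add h ih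
    convert this using 2
    rw [Finset.sum_insert ha]

theorem DClass.dfun (h : DClass 𝒟) {κ : Type} [Fintype κ] {p : (κ → ℤ) → ℤ}
    (hp : IsIntForm p) : DFun 𝒟 p := by
  obtain ⟨c, c0, hc⟩ := hp
  have := (DFun.sum h Finset.univ fun k : κ => (h.dfun_var k).zsmul h (c k)).add h
    (h.dfun_const c0)
  convert this using 2
  rw [hc]

/-- preimages under affine maps -/
theorem DClass.preimage (h : DClass 𝒟) {ι κ : Type} [Finite ι] [Fintype κ] {s : Set (ι → ℤ)}
    (hs : 𝒟 ι s) {p : ι → (κ → ℤ) → ℤ} (hp : ∀ i, IsIntForm (p i)) :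
    𝒟 κ {y | (fun i => p i y) ∈ s} := h.subst hs fun i => h.dfun (hp i)

/-- equality of affine functions -/
theorem DClass.form_eq (h : DClass 𝒟) {κ : Type} [Fintype κ] {p q : (κ → ℤ) → ℤ}
    (hp : IsIntForm p) (hq : IsIntForm q) : 𝒟 κ {y | p y = q y} :=
  h.preimage h.eq (p := ![p, q]) (by
    intro i
    fin_cases i
    · exact hp
    · exact hq)

/-- unary definable sets -/
def D1 (𝒟 : ∀ ι : Type, Set (ι → ℤ) → Prop) (A : Set ℤ) : Prop := 𝒟 Unit {x | x () ∈ A}

theorem DClass.mem (h : DClass 𝒟) {A : Set ℤ} (hA : D1 𝒟 A) {κ : Type} [Fintype κ]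
    {p : (κ → ℤ) → ℤ} (hp : IsIntForm p) : 𝒟 κ {y | p y ∈ A} :=
  h.preimage hA (p := fun _ => p) fun _ => hp

theorem DClass.ex (h : DClass 𝒟) {κ : Type} [Finite κ] {s : Set (Option κ → ℤ)}
    (hs : 𝒟 (Option κ) s) : 𝒟 κ {y | ∃ z : ℤ, cons z y ∈ s} := by
  have := h.proj (fun k : κ => some k) hs
  convert this using 1
  ext y
  constructor
  · rintro ⟨z, hz⟩
    exact ⟨_, hz, rfl⟩
  · rintro ⟨w, hw, rfl⟩
    refine ⟨w none, ?_⟩
    convert hw using 1
    funext o
    rcases o with _ | o <;> rfl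

theorem DClass.all (h : DClass 𝒟) {κ : Type} [Finite κ] {s : Set (Option κ → ℤ)}
    (hs : 𝒟 (Option κ) s) : 𝒟 κ {y | ∀ z : ℤ, cons z y ∈ s} := by
  have := h.compl (h.ex (h.compl hs))
  convert this using 1
  ext y
  simp

theorem DClass.imp (h : DClass 𝒟) {κ : Type} {s t : Set (κ → ℤ)} (hs : 𝒟 κ s) (ht : 𝒟 κ t) :
    𝒟 κ {y | y ∈ s → y ∈ t} := by
  have := h.union (h.compl hs) ht
  convert this using 1
  ext y
  exact imp_iff_not_or

/-- the sets definable with parameters in a structure in which addition is definable -/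
theorem dclass_definable (L : FirstOrder.Language) [L.Structure ℤ]
    (hadd : (Set.univ : Set ℤ).Definable L {x : Fin 3 → ℤ | x 0 + x 1 = x 2}) :
    DClass fun ι s => (Set.univ : Set ℤ).Definable L (s : Set (ι → ℤ)) where
  compl := fun h => h.compl
  inter := fun h h' => h.inter h'
  reindex := fun e _ h => h.preimage_comp e
  proj := fun e _ h => h.image_comp e
  const := fun c => by
    have h1 := Set.Definable.singleton_of_mem (L := L) (Set.mem_univ c)
    have h2 := Set.Definable.preimage_comp (fun _ : Fin 1 => ()) h1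
    convert h2 using 1
    ext x
    simp
  add := hadd

theorem dfun_term (h : DClass 𝒟) {L : FirstOrder.Language} [L.Structure ℤ]
    (hf : ∀ n (f : L.Functions n), DFun 𝒟 fun x : Fin n → ℤ => Structure.funMap f x)
    {κ : Type} [Finite κ] (t : L.Term κ) : DFun 𝒟 fun x : κ → ℤ => t.realize x := by
  induction t with
  | var a => exact h.dfun_var a
  | @func l f ts ih =>
    have := h.subst (κ := Option κ) (hf _ f) (p := fun o : Option (Fin l) =>
      o.elim (fun w => w none) fun i => fun w => (ts i).realize fun k => w (some k)) (by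
        intro o
        rcases o with _ | i
        · exact h.dfun_var none
        · exact (ih i).lift h)
    exact this

/-- a class of definable sets containing the relations and the graphs of the functions of a
structure contains all its definable sets -/
theorem DClass.formula (h : DClass 𝒟) {L : FirstOrder.Language} [L.Structure ℤ]
    (hf : ∀ n (f : L.Functions n), DFun 𝒟 fun x : Fin n → ℤ => Structure.funMap f x)
    (hr : ∀ n (r : L.Relations n), 𝒟 (Fin n) {x : Fin n → ℤ | Structure.RelMap r x})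
    {α : Type} [Finite α] {n : ℕ} (φ : L.BoundedFormula α n) :
    𝒟 (α ⊕ Fin n) {x | φ.Realize (fun a => x (Sum.inl a)) fun i => x (Sum.inr i)} := by
  have hsum : ∀ {n : ℕ} (x : α ⊕ Fin n → ℤ),
      Sum.elim (fun a => x (Sum.inl a)) (fun i => x (Sum.inr i)) = x := by
    intro n x
    funext s
    rcases s with s | s <;> rfl
  induction φ with
  | falsum => exact h.empty
  | @equal n t₁ t₂ =>
    have := h.subst h.eq (p := ![fun x : (α ⊕ Fin n → ℤ) => t₁.realize x, fun x => t₂.realize x]) (by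
      intro i
      fin_cases i
      · exact dfun_term h hf t₁
      · exact dfun_term h hf t₂)
    convert this using 1
    ext x
    show t₁.realize _ = t₂.realize _ ↔ t₁.realize x = t₂.realize x
    rw [hsum]
  | rel R ts =>
    have := h.subst (hr _ R) (p := fun i => fun x => (ts i).realize x)
      fun i => dfun_term h hf (ts i)
    convert this using 1
    ext x
    show Structure.RelMap R (fun i => (ts i).realize _) ↔ Structure.RelMap R _
    rw [hsum]
  | imp f₁ f₂ h₁ h₂ =>
    exact h.imp h₁ h₂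
  | @all n f hf' =>
    have h1 := h.reindex (κ := Option (α ⊕ Fin n))
      (Sum.elim (fun a => some (Sum.inl a)) (Fin.lastCases none fun i => some (Sum.inr i))) hf'
    have h2 := h.all h1
    convert h2 using 1
    ext x
    show (∀ z : ℤ, f.Realize _ (Fin.snoc _ z)) ↔ ∀ z : ℤ, f.Realize _ _
    refine forall_congr' fun z => ?_
    apply iff_of_eq
    congr 1
    funext i
    refine Fin.lastCases ?_ (fun i => ?_) i
    · simp
    · simp

/-- the same for sets definable with parameters -/
theorem DClass.definable (h : DClass 𝒟) {L : FirstOrder.Language} [L.Structure ℤ]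
    (hf : ∀ n (f : L.Functions n), DFun 𝒟 fun x : Fin n → ℤ => Structure.funMap f x)
    (hr : ∀ n (r : L.Relations n), 𝒟 (Fin n) {x : Fin n → ℤ | Structure.RelMap r x})
    {n : ℕ} {s : Set (Fin n → ℤ)} (hs : (Set.univ : Set ℤ).Definable L s) : 𝒟 (Fin n) s := by
  obtain ⟨A0, -, hA⟩ := Set.definable_iff_finitely_definable.1 hs
  obtain ⟨φ, rfl⟩ := Set.definable_iff_exists_formula_sum.1 hA
  have h1 := h.formula hf hr φ
  have h2 := h.subst (κ := Fin n) h1 (p := Sum.elim (Sum.elim (fun a => fun _ => (a : ℤ))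
    fun i => fun x => x i) fun i => i.elim0) (by
      rintro ((a | i) | i)
      · exact h.dfun_const _
      · exact h.dfun_var i
      · exact i.elim0)
  convert h2 using 1
  ext x
  apply iff_of_eq
  show BoundedFormula.Realize φ _ _ = BoundedFormula.Realize φ _ _
  congr 1
  · funext a
    rcases a with a | i <;> rfl
  · funext i
    exact i.elim0

/-- sets definable with parameters are tame -/
theorem tame_definable {J : Type} [Finite J] [Nonempty J] {θ : J → ℝ}
    (hθ : ∀ j, Irrational (θ j)) (hd : Dense θ) {L : FirstOrder.Language.{0, 0}} [L.Structure ℤ]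
    (hf : ∀ n (f : L.Functions n), IsIntForm fun x : Fin n → ℤ => Structure.funMap f x)
    (hr : ∀ n (r : L.Relations n), Tame θ {x : Fin n → ℤ | Structure.RelMap r x})
    {n : ℕ} {s : Set (Fin n → ℤ)} (hs : (Set.univ : Set ℤ).Definable L s) : Tame θ s := by
  obtain ⟨A0, -, hA⟩ := Set.definable_iff_finitely_definable.1 hs
  obtain ⟨φ, rfl⟩ := Set.definable_iff_exists_formula_sum.1 hA
  have h1 := tame_formula hθ hd hf hr φ
  have h2 := h1.preimage (κ := Fin n) (p := fun x => Sum.elim (Sum.elim (fun a => (a : ℤ))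
    fun i => x i) fun i => i.elim0) (by
      rintro ((a | i) | i)
      · exact isIntForm_const _
      · exact isIntForm_var i
      · exact i.elim0)
  convert h2 using 1
  ext x
  apply iff_of_eq
  show BoundedFormula.Realize φ _ _ = BoundedFormula.Realize φ _ _
  congr 1

end Pool.Agent.R612.IS
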