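import Pool.Agent.R612.IS.Cls

/-!
If all unary sets of a class are trivial, then the class is the smallest one.
-/

set_option autoImplicit false

namespace Pool.Agent.R612.IS

open SignType Pool.Agent.R612.CO

variable {θ : ℝ}

/-- cells of a tame set -/
theorem cells {ι : Type} [Fintype ι] {S : Set (Option ι → ℤ)}
    (hS : Tame (fun _ : Unit => θ) S) :
    ∃ M : ℕ, 0 < M ∧ ∃ AA : ℤ → Set (ℚ × ((ι → ℚ) → ℝ)), (∀ r, (AA r).Finite) ∧
      (∀ r, ∀ a ∈ AA r, a.2 ∈ GG θ ι) ∧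
      (∀ r, ((1 : ℚ), fun _ => (0 : ℝ)) ∈ AA r) ∧ (∀ r, ((1 : ℚ), fun _ => (-1 : ℝ)) ∈ AA r) ∧
      ∀ (r : ℤ) (y : ι → ℤ) (z z' : ℤ),
        (∀ a ∈ AA r, sign ((a.1 : ℝ) * Int.fract (z * θ) + a.2 fun i => (y i : ℚ)) =
          sign ((a.1 : ℝ) * Int.fract (z' * θ) + a.2 fun i => (y i : ℚ))) →
        cons (M * z + r) y ∈ S → cons (M * z' + r) y ∈ S := by
  classical
  obtain ⟨N, hN, E, hE1, hE2, hE3⟩ := hS
  have hdec : ∀ g, g ∈ E () → ∃ M₀ : ℕ, 0 < M₀ ∧ ∀ M : ℕ, M₀ ∣ M → ∀ r : ℤ,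
      ∃ K c A T t, DecAt θ g M r K c A T t := fun g hg => exists_dec (hE2 () g hg)
  choose! M₀ hM₀ hdec using hdec
  obtain ⟨M₁, hM₁, hM₁'⟩ := exists_common_multiple (hE1 ()) M₀ hM₀
  set M := N * M₁ with hM
  have hMpos : 0 < M := Nat.mul_pos hN hM₁
  have hdec' : ∀ g, g ∈ E () → ∀ r : ℤ, ∃ K c A T t, DecAt θ g M r K c A T t :=
    fun g hg r => hdec g hg M ((hM₁' g hg).trans (Dvd.intro_left _ rfl)) r
  choose! K c A T t D using hdec'
  refine ⟨M, hMpos, fun r =>
    {((1 : ℚ), fun _ => (0 : ℝ)), ((1 : ℚ), fun _ => (-1 : ℝ))} ∪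
      ⋃ g ∈ E (), (A g r ∪ (fun τ : ℚ => (K g r, fun y => c g r y - τ)) '' T g r),
    ?_, ?_, fun r => Or.inl (Or.inl rfl), fun r => Or.inl (Or.inr rfl), ?_⟩
  · intro r
    exact (Set.toFinite _).union ((hE1 ()).biUnion fun g hg =>
      (D g hg r).A_fin.union ((D g hg r).T_fin.image _))
  · rintro r a (ha | ha)
    · rcases ha with rfl | rfl
      · have := const_mem (θ := θ) (ι := ι) 0
        simpa using this
      · have := const_mem (θ := θ) (ι := ι) (-1)
        simpa using this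
    · obtain ⟨g, hg, ha⟩ := Set.mem_iUnion₂.1 ha
      rcases ha with ha | ⟨τ, hτ, rfl⟩
      · exact (D g hg r).A_mem a ha
      · exact (GG θ ι).sub_mem (D g hg r).c_mem (const_mem τ)
  · intro r y z z' hs hx
    refine hE3 _ _ ⟨fun i => ?_, ?_⟩ hx
    · rcases i with _ | i
      · show (N : ℤ) ∣ (M * z + r) - (M * z' + r)
        have : ((M : ℤ) * z + r) - (M * z' + r) = N * (M₁ * (z - z')) := by
          rw [hM]
          push_cast
          ring
        rw [this]
        exact Dvd.intro _ rfl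
      · show (N : ℤ) ∣ y i - y i
        rw [sub_self]
        exact dvd_zero _
    · rintro ⟨⟩ g hg
      rw [cons_cast, cons_cast]
      have hDj := D g hg r
      have ht : t g r (Int.fract (z * θ)) (fun i => (y i : ℚ)) =
          t g r (Int.fract (z' * θ)) (fun i => (y i : ℚ)) :=
        hDj.t_eq _ _ (Int.fract_nonneg _) (Int.fract_lt_one _) (Int.fract_nonneg _)
          (Int.fract_lt_one _) _ _ fun a ha =>
            hs a (Or.inr (Set.mem_iUnion₂.2 ⟨g, hg, Or.inl ha⟩))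
      have htm := hDj.t_mem (Int.fract (z * θ)) (Int.fract_nonneg _) (Int.fract_lt_one _)
        (fun i => (y i : ℚ))
      have := hs _ (Or.inr (Set.mem_iUnion₂.2 ⟨g, hg, Or.inr ⟨_, htm, rfl⟩⟩))
      simp only at this
      push_cast
      rw [hDj.eq, hDj.eq, ← ht]
      simpa only [add_sub_assoc] using this

/-- some interval of `fract (z θ)` is contained in `F` and another one is disjoint from `F` -/
def Mixed (θ : ℝ) (F : Set ℤ) : Prop :=
  ∃ p q p' q' : ℝ, (0 ≤ p ∧ p < q ∧ q ≤ 1) ∧ (0 ≤ p' ∧ p' < q' ∧ q' ≤ 1) ∧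
    (∀ z : ℤ, p < Int.fract (z * θ) → Int.fract (z * θ) < q → z ∈ F) ∧
    (∀ z : ℤ, p' < Int.fract (z * θ) → Int.fract (z * θ) < q' → z ∉ F)

theorem off_thresholds {ι : Type} [Fintype ι] {S : Set (Option ι → ℤ)} {M : ℕ} {r : ℤ}
    {B : Set (ℚ × ((ι → ℚ) → ℝ))} (hfin : B.Finite)
    (h0 : ((1 : ℚ), fun _ => (0 : ℝ)) ∈ B) (h1 : ((1 : ℚ), fun _ => (-1 : ℝ)) ∈ B) {y : ι → ℤ}
    (hB : ∀ z z' : ℤ, (∀ a ∈ B, sign ((a.1 : ℝ) * Int.fract (z * θ) + a.2 fun i => (y i : ℚ)) =
          sign ((a.1 : ℝ) * Int.fract (z' * θ) + a.2 fun i => (y i : ℚ))) →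
        cons (M * z + r) y ∈ S → cons (M * z' + r) y ∈ S)
    (hmix : ¬ Mixed θ {z | cons (M * z + r) y ∈ S}) {z z' : ℤ}
    (hz : ∀ a ∈ B, a.1 ≠ 0 → (a.1 : ℝ) * Int.fract (z * θ) + a.2 (fun i => (y i : ℚ)) ≠ 0)
    (hz' : ∀ a ∈ B, a.1 ≠ 0 → (a.1 : ℝ) * Int.fract (z' * θ) + a.2 (fun i => (y i : ℚ)) ≠ 0)
    (hzS : cons (M * z + r) y ∈ S) : cons (M * z' + r) y ∈ S := by
  classical
  by_contra hcon
  apply hmix
  have hwin : ∀ z : ℤ,
      (∀ a ∈ B, a.1 ≠ 0 → (a.1 : ℝ) * Int.fract (z * θ) + a.2 (fun i => (y i : ℚ)) ≠ 0) →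
      ∃ p q : ℝ, 0 ≤ p ∧ p < q ∧ q ≤ 1 ∧ ∀ ξ', p < ξ' → ξ' < q →
          ∀ a ∈ B, sign ((a.1 : ℝ) * Int.fract (z * θ) + a.2 (fun i => (y i : ℚ))) =
            sign ((a.1 : ℝ) * ξ' + a.2 (fun i => (y i : ℚ))) := by
    intro z hz
    obtain ⟨p, q, hp, hpq, hq, hw⟩ := window hfin.toFinset (fun a => (a.1 : ℝ))
          (fun a => a.2 fun i => (y i : ℚ)) (fun a => a.2 fun i => (y i : ℚ))
          (fun a ha b hb => rfl)
          (i0 := ((1 : ℚ), fun _ : ι → ℚ => (0 : ℝ))) (i1 := ((1 : ℚ), fun _ : ι → ℚ => (-1 : ℝ)))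
          (by simpa using h0) (by simpa using h1) (by simp) rfl rfl (by simp) rfl rfl
          (ξ := Int.fract (z * θ))
          (by
            refine lt_of_le_of_ne (Int.fract_nonneg _) fun h => ?_
            refine hz _ h0 one_ne_zero ?_
            simp [← h])
          (Int.fract_lt_one _)
          (fun a ha h => by
            rw [Set.Finite.mem_toFinset] at ha
            exact hz a ha (by exact_mod_cast h))
    exact ⟨p, q, hp, hpq, hq, fun ξ' h h' a ha => hw ξ' h h' a (by simpa using ha)⟩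
  obtain ⟨p, q, hp, hpq, hq, hw⟩ := hwin z hz
  obtain ⟨p', q', hp', hpq', hq', hw'⟩ := hwin z' hz'
  refine ⟨p, q, p', q', ⟨hp, hpq, hq⟩, ⟨hp', hpq', hq'⟩, fun w hw1 hw2 => ?_, fun w hw1 hw2 => ?_⟩
  · exact hB z w (fun a ha => hw _ hw1 hw2 a ha) hzS
  · intro hwS
    exact hcon (hB w z' (fun a ha => (hw' _ hw1 hw2 a ha).symm) hwS)

theorem rat_clear (q : ℚ) {D : ℕ} (h : q.den ∣ D) : ∃ k : ℤ, (D : ℚ) * q = k := by
  obtain ⟨m, rfl⟩ := h
  refine ⟨m * q.num, ?_⟩
  push_cast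
  have := Rat.mul_den_eq_num q
  have : (q.den : ℚ) * m * q = m * (q * q.den) := by ring
  rw [this, Rat.mul_den_eq_num]

theorem form_clear {ι : Type} [Fintype ι] {u : (ι → ℚ) → ℚ} (hu : IsForm u) :
    ∃ d : ℤ, d ≠ 0 ∧ ∃ v : (ι → ℤ) → ℤ, IsIntForm v ∧
      ∀ x : ι → ℤ, (d : ℚ) * u (fun i => (x i : ℚ)) = v x := by
  classical
  obtain ⟨c, c0, hc⟩ := hu
  obtain ⟨D, hD, hD'⟩ := exists_common_multiple (Set.toFinite (Set.univ : Set ι))
    (fun i => (c i).den) fun i _ => (c i).den_pos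
  have h1 : ∀ i, ∃ k : ℤ, ((D * c0.den : ℕ) : ℚ) * c i = k := fun i =>
    rat_clear _ ((hD' i (Set.mem_univ i)).trans (Dvd.intro _ rfl))
  choose k hk using h1
  obtain ⟨k0, hk0⟩ := rat_clear c0 (D := D * c0.den) (Dvd.intro_left _ rfl)
  refine ⟨((D * c0.den : ℕ) : ℤ), ?_, fun x => ∑ i, k i * x i + k0, ⟨k, k0, fun x => rfl⟩, ?_⟩
  · exact_mod_cast (Nat.mul_pos hD c0.den_pos).ne'
  · intro x
    have e : ∀ i, ((D * c0.den : ℕ) : ℚ) * (c i * x i) = k i * x i := fun i => by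
      rw [← mul_assoc, hk]
    rw [hc, Int.cast_natCast, mul_add, hk0, Finset.mul_sum, Finset.sum_congr rfl fun i _ => e i]
    push_cast
    rfl

/-- the induction step of step A -/
theorem stepA_option (hθ : Irrational θ) {𝒟 𝒟' : ∀ ι : Type, Set (ι → ℤ) → Prop}
    (h : DClass 𝒟) (h' : DClass 𝒟') {ι : Type} [Fintype ι]
    (hsub : ∀ s : Set (Option ι → ℤ), 𝒟' _ s → 𝒟 _ s)
    (hmix : ∀ F : Set ℤ, D1 𝒟 F → ¬ Mixed θ F)
    (ih : ∀ s : Set (ι → ℤ), 𝒟 _ s → 𝒟' _ s)
    {S : Set (Option ι → ℤ)} (hS : 𝒟 _ S) (htame : Tame (fun _ : Unit => θ) S) : 𝒟' _ S := by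
  classical
  obtain ⟨M, hM, AA, hfin, hGG, h0, h1, hcell⟩ := cells htame
  -- the forms of the thresholds
  have hhit : ∀ r, ∀ a, a ∈ AA r → ∃ u : (ι → ℚ) → ℚ, IsForm u ∧
      ∀ (z : ℤ) (y : ι → ℚ), a.1 ≠ 0 →
        (a.1 : ℝ) * Int.fract (z * θ) + a.2 y = 0 → (z : ℚ) = u y :=
    fun r a ha => exists_hit hθ (hGG r a ha) a.1
  choose! u hu1 hu2 using hhit
  have hcl : ∀ r, ∀ a, a ∈ AA r → ∃ d : ℤ, d ≠ 0 ∧ ∃ v : (ι → ℤ) → ℤ, IsIntForm v ∧
      ∀ x : ι → ℤ, (d : ℚ) * u r a (fun i => (x i : ℚ)) = v x :=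
    fun r a ha => form_clear (hu1 r a ha)
  choose! d hd v hv1 hv2 using hcl
  have hoff : ∀ r (y : ι → ℤ) (z z' : ℤ), (∀ a ∈ AA r, d r a * z ≠ v r a y) →
      (∀ a ∈ AA r, d r a * z' ≠ v r a y) → cons (M * z + r) y ∈ S → cons (M * z' + r) y ∈ S := by
    intro r y z z' hz hz' hzS
    have hne : ∀ z : ℤ, (∀ a ∈ AA r, d r a * z ≠ v r a y) → ∀ a ∈ AA r, a.1 ≠ 0 →
        (a.1 : ℝ) * Int.fract (z * θ) + a.2 (fun i => (y i : ℚ)) ≠ 0 := by
      intro z hz a ha ha1 h2
      refine hz a ha ?_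
      have h3 := hu2 r a ha z _ ha1 h2
      have h4 := hv2 r a ha y
      rw [← h3] at h4
      exact_mod_cast h4
    refine off_thresholds (hfin r) (h0 r) (h1 r) (hcell r y) ?_ (hne z hz) (hne z' hz') hzS
    apply hmix
    have hh := h.preimage hS (κ := Unit) (p := fun o : Option ι => o.elim (fun x => M * x () + r)
      fun i => fun _ => y i) (by
        rintro (_ | i)
        · exact ((isIntForm_var ()).smul _).add (isIntForm_const _)
        · exact isIntForm_const _)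
    show 𝒟 _ _
    convert hh using 1
    ext x
    show cons (M * x () + r) y ∈ S ↔ _ ∈ S
    apply iff_of_eq
    congr 1
    funext o
    rcases o with _ | i <;> rfl
  -- the auxiliary sets
  have hmem : ∀ r : ℤ, 𝒟 (Option ι) {w | cons (M * w none + r) (fun i => w (some i)) ∈ S} := by
    intro r
    have := h.preimage hS (κ := Option ι) (p := fun o : Option ι => o.elim
      (fun x => M * x none + r) fun i => fun x => x (some i)) (by
        rintro (_ | i)
        · exact ((isIntForm_var none).smul _).add (isIntForm_const _)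
        · exact isIntForm_var (some i))
    convert this using 1
    ext x
    show cons (M * x none + r) _ ∈ S ↔ _ ∈ S
    apply iff_of_eq
    congr 1
    funext o
    rcases o with _ | i <;> rfl
  have hvo : ∀ r, ∀ a ∈ AA r, IsIntForm fun w : Option ι → ℤ => v r a fun i => w (some i) :=
    fun r a ha => (hv1 r a ha).comp fun i => isIntForm_var (some i)
  have heq' : ∀ r, ∀ a ∈ AA r,
      𝒟' (Option ι) {w | d r a * w none = v r a fun i => w (some i)} := fun r a ha =>
    h'.form_eq ((isIntForm_var none).smul _) (hvo r a ha)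
  have hneq' : ∀ r, 𝒟' (Option ι) {w | ∀ a ∈ (hfin r).toFinset,
      w ∈ {w : Option ι → ℤ | d r a * w none = v r a fun i => w (some i)}ᶜ} := fun r =>
    h'.biInter _ fun a ha => h'.compl (heq' r a (by simpa using ha))
  have hT : ∀ r : ℤ, 𝒟' ι {y | ∃ z : ℤ, cons z y ∈
      {w : Option ι → ℤ | ∀ a ∈ (hfin r).toFinset,
        w ∈ {w : Option ι → ℤ | d r a * w none = v r a fun i => w (some i)}ᶜ} ∩
      {w | cons (M * w none + r) (fun i => w (some i)) ∈ S}} := fun r =>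
    ih _ (h.ex (h.inter (hsub _ (hneq' r)) (hmem r)))
  have hE : ∀ r : ℤ, ∀ a ∈ AA r, 𝒟' ι {y | ∃ z : ℤ, cons z y ∈
      {w : Option ι → ℤ | d r a * w none = v r a fun i => w (some i)} ∩
      {w | cons (M * w none + r) (fun i => w (some i)) ∈ S}} := fun r a ha =>
    ih _ (h.ex (h.inter (hsub _ (heq' r a ha)) (hmem r)))
  -- the description of `S`
  have hG : ∀ r : ℤ, 𝒟' (Option ι) ({w : Option ι → ℤ | ∀ a ∈ (hfin r).toFinset,
        w ∈ {w : Option ι → ℤ | d r a * w none = v r a fun i => w (some i)}ᶜ} ∩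
      {w | w ∘ some ∈ {y : ι → ℤ | ∃ z : ℤ, cons z y ∈
        {w : Option ι → ℤ | ∀ a ∈ (hfin r).toFinset,
          w ∈ {w : Option ι → ℤ | d r a * w none = v r a fun i => w (some i)}ᶜ} ∩
        {w | cons (M * w none + r) (fun i => w (some i)) ∈ S}}} ∪
      {w | ∃ a ∈ (hfin r).toFinset, w ∈ {w : Option ι → ℤ |
          d r a * w none = v r a fun i => w (some i)} ∩
        {w | w ∘ some ∈ {y : ι → ℤ | ∃ z : ℤ, cons z y ∈
          {w : Option ι → ℤ | d r a * w none = v r a fun i => w (some i)} ∩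
          {w | cons (M * w none + r) (fun i => w (some i)) ∈ S}}}}) := by
    intro r
    refine h'.union (h'.inter (hneq' r) (h'.reindex _ (hT r))) (h'.biUnion _ fun a ha => ?_)
    have ha' : a ∈ AA r := by simpa using ha
    exact h'.inter (heq' r a ha') (h'.reindex _ (hE r a ha'))
  have hfinal := h'.biUnion (Finset.range M) fun r _ => h'.ex (κ := Option ι)
    (h'.inter (h'.form_eq (κ := Option (Option ι)) (p := fun w => w (some none))
      (q := fun w => M * w none + (r : ℤ)) (isIntForm_var _)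
        (((isIntForm_var _).smul _).add (isIntForm_const _)))
      (h'.reindex (fun o : Option ι => o.elim none fun i => some (some i)) (hG r)))
  convert hfinal using 1
  ext w
  constructor
  · intro hw
    have hMz : (0 : ℤ) < M := by exact_mod_cast hM
    have hr0 := Int.emod_nonneg (w none) hMz.ne'
    have hr1 := Int.emod_lt_of_pos (w none) hMz
    obtain ⟨r, hr⟩ := Int.eq_ofNat_of_zero_le hr0
    refine ⟨r, by rw [Finset.mem_range]; omega, w none / M, ?_, ?_⟩
    · show w none = M * (w none / M) + r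
      rw [← hr]
      exact (Int.mul_ediv_add_emod _ _).symm
    · set z := w none / (M : ℤ) with hz
      have hw0 : w none = M * z + r := by
        rw [← hr]
        exact (Int.mul_ediv_add_emod _ _).symm
      have hwS : cons (M * z + r) (fun i => w (some i)) ∈ S := by
        rw [← hw0]
        convert hw using 1
        funext o
        rcases o with _ | i <;> rfl
      by_cases hex : ∃ a ∈ AA r, d r a * z = v r a fun i => w (some i)
      · obtain ⟨a, ha, ha'⟩ := hex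
        right
        exact ⟨a, by simpa using ha, ha', z, ha', hwS⟩
      · push Not at hex
        left
        have : ∀ a ∈ (hfin r).toFinset, ¬ d r a * z = v r a fun i => w (some i) :=
          fun a ha => hex a (by simpa using ha)
        exact ⟨this, z, this, hwS⟩
  · rintro ⟨r, -, z, hz, hz'⟩
    have hw0 : w none = M * z + r := hz
    have key : cons (M * z + r) (fun i => w (some i)) ∈ S := by
      rcases hz' with ⟨hz1, z', hz2, hz3⟩ | ⟨a, ha, hz1, z', hz2, hz3⟩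
      · have h2 : ∀ a ∈ AA r, d r a * z ≠ v r a fun i => w (some i) :=
          fun a ha => hz1 a (by simpa using ha)
        have h3 : ∀ a ∈ AA r, d r a * z' ≠ v r a fun i => w (some i) :=
          fun a ha => hz2 a (by simpa using ha)
        exact hoff r _ z' z h3 h2 hz3
      · have h2 : d r a * z = v r a fun i => w (some i) := hz1
        have h3 : d r a * z' = v r a fun i => w (some i) := hz2
        have h4 : z = z' := mul_left_cancel₀ (hd r a (by simpa using ha)) (h2.trans h3.symm)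
        rw [h4]
        exact hz3
    rw [← hw0] at key
    convert key using 1
    funext o
    rcases o with _ | i <;> rfl

/-- **step A** -/
theorem stepA (hθ : Irrational θ) {𝒟 𝒟' : ∀ ι : Type, Set (ι → ℤ) → Prop}
    (h : DClass 𝒟) (h' : DClass 𝒟') (hsub : ∀ n, ∀ s : Set (Fin n → ℤ), 𝒟' _ s → 𝒟 _ s)
    (hmix : ∀ F : Set ℤ, D1 𝒟 F → ¬ Mixed θ F)
    (htame : ∀ n, ∀ s : Set (Fin n → ℤ), 𝒟 _ s → Tame (fun _ : Unit => θ) s) :
    ∀ n, ∀ s : Set (Fin n → ℤ), 𝒟 _ s → 𝒟' _ s := by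
  intro n
  induction n with
  | zero =>
    intro s hs
    rcases s.eq_empty_or_nonempty with rfl | ⟨x, hx⟩
    · exact h'.empty
    · have : s = Set.univ := by
        ext y
        simp only [Set.mem_univ, iff_true]
        rw [Subsingleton.elim y x]
        exact hx
      rw [this]
      exact h'.univ
  | succ n ih =>
    intro s hs
    let e : Fin (n + 1) ≃ Option (Fin n) := finSuccEquiv n
    have hs' : 𝒟 (Option (Fin n)) {y | y ∘ e ∈ s} := h.reindex e hs
    have h1 : 𝒟' (Option (Fin n)) {y | y ∘ e ∈ s} := by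
      refine stepA_option hθ h h' (fun t ht => ?_) hmix ih hs' ((htame _ s hs).reindex e)
      have h2 := h'.reindex e.symm ht
      have h3 := h.reindex e (hsub _ _ h2)
      convert h3 using 1
      ext y
      show y ∈ t ↔ (y ∘ e) ∘ e.symm ∈ t
      rw [Function.comp_assoc, Equiv.self_comp_symm, Function.comp_id]
    have h2 := h'.reindex e.symm h1
    convert h2 using 1
    ext y
    show y ∈ s ↔ (y ∘ e.symm) ∘ e ∈ s
    rw [Function.comp_assoc, Equiv.symm_comp_self, Function.comp_id]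

end Pool.Agent.R612.IS
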