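import Pool.Agent.R612.IS.StepA

/-!
From a step function to small neighbourhoods of zero and to the order near zero.
-/

set_option autoImplicit false

namespace Pool.Agent.R612.IS

open Pool.Agent.R612.CO

variable {α : ℝ}

theorem dens (hα : Irrational α) {x y : ℝ} (hxy : x < y) :
    ∃ z m : ℤ, x < z * α + m ∧ z * α + m < y := by
  have h : Dense (AddSubgroup.closure {α, 1} : Set ℝ) :=
    dense_addSubgroupClosure_pair_iff.2 (by rwa [div_one])
  obtain ⟨t, ht, ht1, ht2⟩ := h.exists_between hxy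
  obtain ⟨z, m, hzm⟩ := AddSubgroup.mem_closure_pair.1 ht
  refine ⟨z, m, ?_⟩
  rw [zsmul_eq_mul, zsmul_eq_mul, mul_one] at hzm
  rw [hzm]
  exact ⟨ht1, ht2⟩

theorem dens_res (hα : Irrational α) {s : ℕ} (hs : 0 < s) (r : ℤ) {x y : ℝ} (hxy : x < y) :
    ∃ z m : ℤ, x < ((s * z + r : ℤ) : ℝ) * α + m ∧ ((s * z + r : ℤ) : ℝ) * α + m < y := by
  have hα' : Irrational (s * α) := by
    have := hα.natCast_mul hs.ne'
    exact this
  obtain ⟨z, m, h1, h2⟩ := dens hα' (show x - r * α < y - r * α by linarith)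
  refine ⟨z, m, ?_, ?_⟩
  · push_cast
    linarith
  · push_cast
    linarith

/-- step functions -/
structure StepFn (f : ℝ → Prop) : Prop where
  per : ∀ (x : ℝ) (m : ℤ), f (x + m) ↔ f x
  right : ∀ x : ℝ, ∃ ε > 0, ∀ y, x ≤ y → y < x + ε → (f y ↔ f x)
  left : ∀ x : ℝ, ∃ ε > 0, ∃ b : Prop, ∀ y, x - ε < y → y < x → (f y ↔ b)
  nonconst : ∃ x y, f x ∧ ¬ f y

variable {f : ℝ → Prop}

theorem StepFn.not (hf : StepFn f) : StepFn fun x => ¬ f x where
  per := fun x m => not_congr (hf.per x m)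
  right := fun x => by
    obtain ⟨ε, hε, h⟩ := hf.right x
    exact ⟨ε, hε, fun y h1 h2 => not_congr (h y h1 h2)⟩
  left := fun x => by
    obtain ⟨ε, hε, b, h⟩ := hf.left x
    exact ⟨ε, hε, ¬ b, fun y h1 h2 => not_congr (h y h1 h2)⟩
  nonconst := by
    obtain ⟨x, y, h1, h2⟩ := hf.nonconst
    exact ⟨y, x, h2, not_not.2 h1⟩

theorem StepFn.jump (hf : StepFn f) : ∃ e ε : ℝ, 0 < ε ∧
    (∀ y, e ≤ y → y < e + ε → (f y ↔ f e)) ∧ (∀ y, e - ε < y → y < e → (f y ↔ ¬ f e)) := by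
  classical
  by_contra hcon
  push Not at hcon
  have hloc : ∀ e : ℝ, ∃ ε > 0, ∀ y, |y - e| < ε → (f y ↔ f e) := by
    intro e
    obtain ⟨ε₁, h1, hr⟩ := hf.right e
    obtain ⟨ε₂, h2, b, hl⟩ := hf.left e
    have hb : b ↔ f e := by
      by_contra hb
      have hb' : b ↔ ¬ f e := by tauto
      obtain ⟨y, hy1, hy2, hy3⟩ := hcon e (min ε₁ ε₂) (lt_min h1 h2) fun y h3 h4 =>
        hr y h3 (by linarith [min_le_left ε₁ ε₂])
      have := hl y (by linarith [min_le_right ε₁ ε₂]) hy2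
      tauto
    refine ⟨min ε₁ ε₂, lt_min h1 h2, fun y hy => ?_⟩
    rw [abs_lt] at hy
    rcases le_or_gt e y with h | h
    · exact hr y h (by linarith [min_le_left ε₁ ε₂])
    · exact (hl y (by linarith [min_le_right ε₁ ε₂]) h).trans hb
  have hopen : ∀ P : Prop, IsOpen {x | f x ↔ P} := by
    intro P
    rw [Metric.isOpen_iff]
    intro x hx
    obtain ⟨ε, hε, h⟩ := hloc x
    refine ⟨ε, hε, fun y hy => ?_⟩
    rw [Metric.mem_ball, Real.dist_eq] at hy
    exact (h y hy).trans hx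
  have hclopen : IsClopen {x | f x} := by
    constructor
    · rw [← isOpen_compl_iff]
      have := hopen False
      convert this using 1
      ext x
      simp
    · have := hopen True
      convert this using 1
      ext x
      simp
  obtain ⟨x, y, hx, hy⟩ := hf.nonconst
  rcases isClopen_iff.1 hclopen with h | h
  · have : x ∈ {x | f x} := hx
    rw [h] at this
    exact this
  · have : y ∈ {x | f x} := by
      rw [h]
      exact Set.mem_univ _
    exact hy this

/-- the periods -/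
def periods (f : ℝ → Prop) : AddSubgroup ℝ where
  carrier := {t | ∀ x, f (x + t) ↔ f x}
  zero_mem' := fun x => by rw [add_zero]
  add_mem' := fun {a b} ha hb x => by
    rw [← add_assoc]
    exact (hb _).trans (ha _)
  neg_mem' := fun {a} ha x => by
    have := ha (x + -a)
    rw [neg_add_cancel_right] at this
    exact this.symm

theorem StepFn.cyclic (hf : StepFn f) :
    ∃ s : ℕ, 0 < s ∧ ∀ t, t ∈ periods f ↔ ∃ k : ℤ, t = k / s := by
  have hone : (1 : ℝ) ∈ periods f := fun x => by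
    have := hf.per x 1
    rwa [Int.cast_one] at this
  rcases AddSubgroup.dense_or_cyclic (periods f) with h | ⟨g, hg⟩
  · exfalso
    obtain ⟨x, y, hx, hy⟩ := hf.nonconst
    obtain ⟨ε, hε, h1⟩ := hf.right y
    obtain ⟨t, ht, ht1, ht2⟩ := h.exists_between (show y - x < y - x + ε by linarith)
    have h2 : f (x + t) := (ht x).2 hx
    exact hy ((h1 (x + t) (by linarith) (by linarith)).1 h2)
  · rw [hg, AddSubgroup.mem_closure_singleton] at hone
    obtain ⟨n, hn⟩ := hone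
    rw [zsmul_eq_mul] at hn
    have hn0 : n ≠ 0 := by
      rintro rfl
      rw [Int.cast_zero, zero_mul] at hn
      exact zero_ne_one hn
    have hn0' : (n : ℝ) ≠ 0 := by exact_mod_cast hn0
    refine ⟨n.natAbs, Int.natAbs_pos.2 hn0, fun t => ?_⟩
    have hg' : g = 1 / n := by
      rw [eq_div_iff hn0', mul_comm]
      exact hn
    rw [hg, AddSubgroup.mem_closure_singleton]
    have hcast : ((n.natAbs : ℕ) : ℝ) = |(n : ℝ)| := by
      rw [← Int.cast_abs, Int.abs_eq_natAbs]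
      rfl
    rw [hcast]
    constructor
    · rintro ⟨k, rfl⟩
      rcases abs_choice (n : ℝ) with h | h
      · refine ⟨k, ?_⟩
        rw [h, zsmul_eq_mul, hg']
        ring
      · refine ⟨-k, ?_⟩
        rw [h, zsmul_eq_mul, hg']
        push_cast
        field_simp
    · rintro ⟨k, rfl⟩
      rcases abs_choice (n : ℝ) with h | h
      · refine ⟨k, ?_⟩
        rw [h, zsmul_eq_mul, hg']
        ring
      · refine ⟨-k, ?_⟩
        rw [h, zsmul_eq_mul, hg']
        push_cast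
        field_simp

theorem StepFn.sep (hα : Irrational α) (hf : StepFn f) {t : ℝ} (ht : t ∉ periods f) :
    ∃ (k : ℤ) (ε : ℝ), 0 < ε ∧ (∀ t', |t' - t| < ε → ¬ (f (k * α + t') ↔ f (k * α))) ∧
      (∀ t', |t'| < ε → (f (k * α + t') ↔ f (k * α))) := by
  have ht' : ¬ ∀ x, f (x + t) ↔ f x := ht
  push Not at ht'
  obtain ⟨x, hx⟩ := ht'
  obtain ⟨ε₁, h1, hr1⟩ := hf.right x
  obtain ⟨ε₂, h2, hr2⟩ := hf.right (x + t)
  set ε := min ε₁ ε₂ with hε
  have hε0 : 0 < ε := lt_min h1 h2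
  have hε1 : ε ≤ ε₁ := min_le_left _ _
  have hε2 : ε ≤ ε₂ := min_le_right _ _
  obtain ⟨k, m, hk1, hk2⟩ := dens hα (show x + ε / 3 < x + 2 * ε / 3 by linarith)
  have e0 : f (k * α) ↔ f x := by
    rw [← hf.per _ m]
    exact hr1 _ (by linarith) (by linarith)
  refine ⟨k, ε / 3, by linarith, fun t' ht' => ?_, fun t' ht' => ?_⟩
  · rw [abs_lt] at ht'
    have e1 : f (k * α + t') ↔ f (x + t) := by
      rw [← hf.per _ m]
      exact hr2 _ (by linarith) (by linarith)
    rw [e0, e1]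
    intro hc
    rcases hx with ⟨h3, h4⟩ | ⟨h3, h4⟩
    · exact h4 (hc.1 h3)
    · exact h3 (hc.2 h4)
  · rw [abs_lt] at ht'
    have e1 : f (k * α + t') ↔ f x := by
      rw [← hf.per _ m]
      exact hr1 _ (by linarith) (by linarith)
    rw [e0, e1]

variable {𝒟 : ∀ ι : Type, Set (ι → ℤ) → Prop}

theorem D1.of_iff {A B : Set ℤ} (hA : D1 𝒟 A) (hAB : ∀ z, z ∈ A ↔ z ∈ B) : D1 𝒟 B := by
  have : A = B := Set.ext hAB
  rwa [← this]

/-- neighbourhoods of the group of periods -/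
theorem nbhd_periods (hα : Irrational α) (h : DClass 𝒟) (hf : StepFn f)
    (hY : D1 𝒟 {z : ℤ | f (z * α)}) {s : ℕ} (hs : 0 < s)
    (hper : ∀ t, t ∈ periods f ↔ ∃ k : ℤ, t = k / s) {δ : ℝ} (hδ : 0 < δ) :
    ∃ B : Set ℤ, D1 𝒟 B ∧ ∃ η > 0, (∀ z k : ℤ, |z * α - k / s| < η → z ∈ B) ∧
      ∀ z ∈ B, ∃ k : ℤ, |(z : ℝ) * α - k / s| < δ := by
  classical
  set C : Set ℝ := Set.Icc 0 1 ∩ {t | ∀ k : ℤ, δ ≤ |t - k / s|} with hC
  have hCc : IsCompact C := by
    refine isCompact_Icc.inter_right ?_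
    rw [show {t : ℝ | ∀ k : ℤ, δ ≤ |t - k / s|} = ⋂ k : ℤ, {t : ℝ | δ ≤ |t - k / s|} by
      ext t; simp]
    exact isClosed_iInter fun k => isClosed_le continuous_const (by fun_prop)
  have hsep : ∀ t ∈ C, ∃ (k : ℤ) (ε : ℝ), 0 < ε ∧
      (∀ t', |t' - t| < ε → ¬ (f (k * α + t') ↔ f (k * α))) ∧
      (∀ t', |t'| < ε → (f (k * α + t') ↔ f (k * α))) := by
    intro t ht
    refine hf.sep hα fun hp => ?_
    obtain ⟨k, hk⟩ := (hper t).1 hp
    have := ht.2 k
    rw [hk, sub_self, abs_zero] at this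
    linarith
  choose! k ε hε h1 h2 using hsep
  obtain ⟨T, hT1, hT2⟩ := hCc.elim_nhds_subcover (fun t => Metric.ball t (ε t))
    fun t ht => Metric.ball_mem_nhds t (hε t ht)
  obtain ⟨η, hη, hη'⟩ : ∃ η > 0, ∀ t ∈ T, η ≤ ε t := by
    rcases T.eq_empty_or_nonempty with rfl | hne
    · exact ⟨1, one_pos, by simp⟩
    · obtain ⟨t, ht, ht'⟩ := T.exists_min_image ε hne
      exact ⟨ε t, hε t (hT1 t ht), ht'⟩
  have hperk : ∀ (x : ℝ) (j : ℤ), f (x + j / s) ↔ f x := fun x j => (hper _).2 ⟨j, rfl⟩ x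
  refine ⟨{z | ∀ t ∈ T, f ((k t + z : ℤ) * α) ↔ f (k t * α)}, ?_, η, hη, ?_, ?_⟩
  · have := h.biInter (ι := Unit) T (s := fun t => {x | f ((k t + x () : ℤ) * α) ↔ f (k t * α)})
      fun t _ => by
        have h3 := h.mem (κ := Unit) hY (p := fun x => k t + x ())
          ((isIntForm_const _).add (isIntForm_var ()))
        by_cases h4 : f (k t * α)
        · convert h3 using 1
          ext x
          show (f _ ↔ f _) ↔ f _
          tauto
        · convert h.compl h3 using 1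
          ext x
          show (f _ ↔ f _) ↔ ¬ f _
          tauto
    exact this
  · intro z j hz t ht
    have e : ((k t + z : ℤ) : ℝ) * α = (k t * α + (z * α - j / s)) + j / s := by
      push_cast
      ring
    rw [e, hperk]
    exact h2 t (hT1 t ht) _ (hz.trans_le (hη' t ht))
  · intro z hz
    by_contra hcon
    push Not at hcon
    have hzC : Int.fract (z * α) ∈ C := by
      refine ⟨⟨Int.fract_nonneg _, (Int.fract_lt_one _).le⟩, fun j => ?_⟩
      have h3 := hcon (⌊(z : ℝ) * α⌋ * s + j)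
      have hs' : (s : ℝ) ≠ 0 := by exact_mod_cast hs.ne'
      have e : (z : ℝ) * α - ((⌊(z : ℝ) * α⌋ * s + j : ℤ) : ℝ) / s =
          Int.fract (z * α) - j / s := by
        rw [Int.fract]
        push_cast
        field_simp
        ring
      rwa [e] at h3
    obtain ⟨t, ht, ht'⟩ := Set.mem_iUnion₂.1 (hT2 hzC)
    rw [Metric.mem_ball, Real.dist_eq] at ht'
    have h3 := h1 t (hT1 t ht) _ ht'
    apply h3
    have e : ((k t + z : ℤ) : ℝ) * α = (k t * α + Int.fract (z * α)) + (⌊(z : ℝ) * α⌋ : ℤ) := by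
      rw [Int.fract]
      push_cast
      ring
    have h4 := hz t ht
    rw [e, hf.per] at h4
    exact h4

/-- neighbourhoods of zero -/
theorem nbhd_zero (hα : Irrational α) (h : DClass 𝒟) (hf : StepFn f)
    (hY : D1 𝒟 {z : ℤ | f (z * α)}) {δ : ℝ} (hδ : 0 < δ) :
    ∃ A : Set ℤ, D1 𝒟 A ∧ ∃ η > 0, (∀ z m : ℤ, |z * α + m| < η → z ∈ A) ∧
      ∀ z ∈ A, ∃ m : ℤ, |(z : ℝ) * α + m| < δ := by
  classical
  obtain ⟨s, hs, hper⟩ := hf.cyclic
  have hs' : (0 : ℝ) < s := by exact_mod_cast hs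
  obtain ⟨B, hB, η, hη, hB1, hB2⟩ := nbhd_periods hα h hf hY hs hper
    (show 0 < δ / (2 * s) by positivity)
  set ρ := min (s * η / 2) (δ / 2) with hρ
  have hρ0 : 0 < ρ := lt_min (by positivity) (by positivity)
  have hb : ∀ r : ℕ, ∃ z m : ℤ, |((s * z + r : ℤ) : ℝ) * α + m| < ρ := by
    intro r
    obtain ⟨z, m, h1, h2⟩ := dens_res hα hs (r : ℤ) (show -ρ < ρ by linarith)
    exact ⟨z, m, abs_lt.2 ⟨h1, h2⟩⟩
  choose b m hbm using hb
  refine ⟨{u | ∃ r ∈ Finset.range s, ∃ z : ℤ, u = (s * b r + r) + s * z ∧ z ∈ B}, ?_,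
    s * η / 2, by positivity, ?_, ?_⟩
  · have := h.biUnion (ι := Unit) (Finset.range s) fun r _ => h.ex (κ := Unit)
      (h.inter (h.form_eq (κ := Option Unit) (p := fun w => w (some ()))
        (q := fun w => (s * b r + r) + s * w none) (isIntForm_var _)
          ((isIntForm_const _).add ((isIntForm_var _).smul _)))
        (h.mem (κ := Option Unit) hB (p := fun w => w none) (isIntForm_var _)))
    exact this
  · intro u m' hu
    have hsz : (0 : ℤ) < s := by exact_mod_cast hs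
    have hr0 := Int.emod_nonneg u hsz.ne'
    have hr1 := Int.emod_lt_of_pos u hsz
    obtain ⟨r, hr⟩ := Int.eq_ofNat_of_zero_le hr0
    have hu' : u = s * (u / s) + r := by
      rw [← hr]
      exact (Int.mul_ediv_add_emod _ _).symm
    refine ⟨r, by rw [Finset.mem_range]; omega, u / s - b r, by rw [mul_sub]; linarith, ?_⟩
    refine hB1 _ (-(m' - m r)) ?_
    have e : (s : ℝ) * (((u / s - b r : ℤ) : ℝ) * α - ((-(m' - m r) : ℤ) : ℝ) / s) =
        (u * α + m') - (((s * b r + r : ℤ) : ℝ) * α + m r) := by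
      have hu'' : (u : ℝ) = s * ((u / s : ℤ) : ℝ) + r := by exact_mod_cast hu'
      rw [hu'']
      push_cast
      field_simp
      ring
    have h1 : (s : ℝ) * |((u / s - b r : ℤ) : ℝ) * α - ((-(m' - m r) : ℤ) : ℝ) / s| < s * η := by
      rw [← abs_of_pos hs', ← abs_mul, abs_of_pos hs', e]
      refine (abs_sub _ _).trans_lt ?_
      have := (hbm r).trans_le (min_le_left _ _)
      linarith
    exact lt_of_mul_lt_mul_left h1 hs'.le
  · rintro u ⟨r, -, z, rfl, hz⟩
    obtain ⟨k, hk⟩ := hB2 z hz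
    refine ⟨m r - k, ?_⟩
    have e : (((s * b r + r) + s * z : ℤ) : ℝ) * α + ((m r - k : ℤ) : ℝ) =
        (((s * b r + r : ℤ) : ℝ) * α + m r) + s * (z * α - k / s) := by
      push_cast
      field_simp
      ring
    rw [e]
    refine (abs_add_le _ _).trans_lt ?_
    have h1 := (hbm r).trans_le (min_le_right _ _)
    have h2 : |(s : ℝ) * (z * α - k / s)| < δ / 2 := by
      rw [abs_mul, abs_of_pos hs']
      calc (s : ℝ) * |z * α - k / s| < s * (δ / (2 * s)) := by gcongr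
        _ = δ / 2 := by field_simp
    linarith

end Pool.Agent.R612.IS
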