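import Pool.Agent.R612.IS.StepB

/-!
Definability of the cyclic order from a step function.
-/

set_option autoImplicit false

namespace Pool.Agent.R612.IS

open Pool.Agent.R612.CO

variable {α : ℝ} {f : ℝ → Prop} {𝒟 : ∀ ι : Type, Set (ι → ℤ) → Prop}

theorem order_true (hα : Irrational α) (h : DClass 𝒟) (hf : StepFn f)
    (hY : D1 𝒟 {z : ℤ | f (z * α)}) {e ε : ℝ} (hε : 0 < ε)
    (hr : ∀ y, e ≤ y → y < e + ε → f y) (hl : ∀ y, e - ε < y → y < e → ¬ f y) :
    ∃ D : Set ℤ, D1 𝒟 D ∧ ∃ η > 0, ∀ u m : ℤ, |u * α + m| < η → (u ∈ D ↔ 0 ≤ u * α + m) := by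
  obtain ⟨A, hA, η, hη, hA1, hA2⟩ := nbhd_zero hα h hf hY (show 0 < ε / 4 by linarith)
  set ρ := min (ε / 4) (η / 2) with hρ
  have hρ0 : 0 < ρ := lt_min (by linarith) (by linarith)
  have hρ1 : ρ ≤ ε / 4 := min_le_left _ _
  have hρ2 : ρ ≤ η / 2 := min_le_right _ _
  obtain ⟨k, m₀, hk1, hk2⟩ := dens hα (show e - ρ < e + ρ by linarith)
  refine ⟨{u | ∀ z : ℤ, z ∈ A → f ((k + z : ℤ) * α) → f ((k + z + u : ℤ) * α)}, ?_, ρ, hρ0, ?_⟩
  · have := h.all (κ := Unit) (h.imp (h.mem (κ := Option Unit) hA (p := fun w => w none)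
      (isIntForm_var _)) (h.imp (h.mem (κ := Option Unit) hY (p := fun w => k + w none)
        ((isIntForm_const _).add (isIntForm_var _)))
        (h.mem (κ := Option Unit) hY (p := fun w => k + w none + w (some ()))
        (((isIntForm_const _).add (isIntForm_var _)).add (isIntForm_var _)))))
    exact this
  · intro u m hum
    rw [abs_lt] at hum
    constructor
    · intro hu
      by_contra hneg
      push Not at hneg
      obtain ⟨z, m', hz1, hz2⟩ := dens hα
        (show e - (k * α + m₀) < e - (k * α + m₀) - (u * α + m) by linarith)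
      have hzA : z ∈ A := hA1 z m' (abs_lt.2 ⟨by linarith, by linarith⟩)
      have e1 : ((k + z : ℤ) : ℝ) * α + ((m₀ + m' : ℤ) : ℝ) =
          (k * α + m₀) + (z * α + m') := by
        push_cast
        ring
      have e2 : ((k + z + u : ℤ) : ℝ) * α + ((m₀ + m' + m : ℤ) : ℝ) =
          (k * α + m₀) + (z * α + m') + (u * α + m) := by
        push_cast
        ring
      have h1 : f ((k + z : ℤ) * α) := by
        rw [← hf.per _ (m₀ + m'), e1]
        exact hr _ (by linarith) (by linarith)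
      have h2 := hu z hzA h1
      rw [← hf.per _ (m₀ + m' + m), e2] at h2
      exact hl _ (by linarith) (by linarith) h2
    · intro hpos z hzA hz
      obtain ⟨m', hm'⟩ := hA2 z hzA
      rw [abs_lt] at hm'
      have e1 : ((k + z : ℤ) : ℝ) * α + ((m₀ + m' : ℤ) : ℝ) =
          (k * α + m₀) + (z * α + m') := by
        push_cast
        ring
      have e2 : ((k + z + u : ℤ) : ℝ) * α + ((m₀ + m' + m : ℤ) : ℝ) =
          (k * α + m₀) + (z * α + m') + (u * α + m) := by
        push_cast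
        ring
      rw [← hf.per _ (m₀ + m'), e1] at hz
      have hge : e ≤ (k * α + m₀) + (z * α + m') := by
        by_contra hlt
        push Not at hlt
        exact hl _ (by linarith) hlt hz
      rw [← hf.per _ (m₀ + m' + m), e2]
      exact hr _ (by linarith) (by linarith)

theorem order_zero (hα : Irrational α) (h : DClass 𝒟) (hf : StepFn f)
    (hY : D1 𝒟 {z : ℤ | f (z * α)}) :
    ∃ D : Set ℤ, D1 𝒟 D ∧ ∃ η > 0, ∀ u m : ℤ, |u * α + m| < η → (u ∈ D ↔ 0 ≤ u * α + m) := by
  obtain ⟨e, ε, hε, hr, hl⟩ := hf.jump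
  by_cases hfe : f e
  · exact order_true hα h hf hY hε (fun y h1 h2 => (hr y h1 h2).2 hfe)
      fun y h1 h2 h3 => (hl y h1 h2).1 h3 hfe
  · refine order_true hα h hf.not ?_ hε (fun y h1 h2 h3 => hfe ((hr y h1 h2).1 h3))
      fun y h1 h2 h3 => h3 ((hl y h1 h2).2 hfe)
    exact h.compl hY

theorem irr_ne (hα : Irrational α) {z m : ℤ} (hz : z ≠ 0) : (z : ℝ) * α + m ≠ 0 := by
  intro h0
  have hz' : (z : ℝ) ≠ 0 := by exact_mod_cast hz
  refine hα ⟨(-m : ℚ) / z, ?_⟩
  push_cast
  rw [div_eq_iff hz']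
  linarith

theorem fract_of {x : ℝ} {m : ℤ} (h0 : 0 ≤ x + m) (h1 : x + m < 1) : Int.fract x = x + m := by
  rw [← Int.fract_add_intCast x m, Int.fract_eq_self]
  exact ⟨h0, h1⟩

theorem fract_inj (hα : Irrational α) {u v : ℤ} (h : Int.fract (u * α) = Int.fract (v * α)) :
    u = v := by
  by_contra hne
  rw [Int.fract, Int.fract] at h
  have := irr_ne hα (z := u - v) (m := ⌊(v : ℝ) * α⌋ - ⌊(u : ℝ) * α⌋) (sub_ne_zero.2 hne)
  apply this
  push_cast
  linarith

/-- the window `(0, ρ)` -/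
theorem window_zero (hα : Irrational α) (h : DClass 𝒟) (hf : StepFn f)
    (hY : D1 𝒟 {z : ℤ | f (z * α)}) : ∃ d : ℤ, 0 < Int.fract (d * α) ∧
      Int.fract (d * α) < 1 / 2 ∧
      D1 𝒟 {u : ℤ | 0 < Int.fract (u * α) ∧ Int.fract (u * α) < Int.fract (d * α)} := by
  obtain ⟨D, hD, η, hη, hD1⟩ := order_zero hα h hf hY
  set κ := min η (1 / 2) / 2 with hκ
  have hmin : 0 < min η (1 / 2) := lt_min hη (by norm_num)
  have hκ0 : 0 < κ := by positivity
  have hκ1 : 2 * κ ≤ η := by
    have := min_le_left η (1 / 2)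
    rw [hκ]
    linarith
  have hκ2 : 2 * κ ≤ 1 / 2 := by
    have := min_le_right η (1 / 2)
    rw [hκ]
    linarith
  obtain ⟨A, hA, η₂, hη₂, hA1, hA2⟩ := nbhd_zero hα h hf hY hκ0
  obtain ⟨d, md, hd1, hd2⟩ := dens hα (show 0 < min κ η₂ from lt_min hκ0 hη₂)
  have hd3 : (d : ℝ) * α + md < κ := hd2.trans_le (min_le_left _ _)
  have hd4 : (d : ℝ) * α + md < η₂ := hd2.trans_le (min_le_right _ _)
  have hfd : Int.fract ((d : ℝ) * α) = d * α + md := fract_of hd1.le (by linarith)
  refine ⟨d, by rw [hfd]; exact hd1, by rw [hfd]; linarith, ?_⟩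
  have hP : D1 𝒟 {u : ℤ | (u ∈ A ∧ u ∈ D) ∧ (d - u ∈ D ∧ (¬ u = 0 ∧ ¬ u = d))} := by
    have := h.inter (ι := Unit) (h.inter hA hD) (h.inter (h.mem (κ := Unit) hD
      (p := fun x => d + (-1) * x ()) ((isIntForm_const _).add ((isIntForm_var _).smul _)))
      (h.inter (h.compl (h.const 0)) (h.compl (h.const d))))
    show 𝒟 _ _
    convert this using 1
    ext x
    show (_ ∧ _) ∧ (d - x () ∈ D ∧ _) ↔ (_ ∧ _) ∧ (d + (-1) * x () ∈ D ∧ _)
    rw [show d + (-1) * x () = d - x () by ring]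
    exact Iff.rfl
  refine hP.of_iff fun u => ?_
  rw [hfd]
  constructor
  · rintro ⟨⟨h1, h2⟩, h3, h4, h5⟩
    obtain ⟨m, hm⟩ := hA2 u h1
    rw [abs_lt] at hm
    have h6 := (hD1 u m (abs_lt.2 ⟨by linarith, by linarith⟩)).1 h2
    have e : ((d - u : ℤ) : ℝ) * α + ((md - m : ℤ) : ℝ) = (d * α + md) - (u * α + m) := by
      push_cast
      ring
    have h7 := (hD1 (d - u) (md - m) (by rw [e, abs_lt]; constructor <;> linarith)).1 h3
    have h8 := irr_ne hα (m := m) h4
    have h9 := irr_ne hα (z := d - u) (m := md - m) (sub_ne_zero.2 (Ne.symm h5))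
    rw [e] at h7 h9
    have h10 : 0 < (u : ℝ) * α + m := lt_of_le_of_ne h6 (Ne.symm h8)
    have h11 : 0 < (d * α + md) - ((u : ℝ) * α + m) := lt_of_le_of_ne h7 (Ne.symm h9)
    have h12 : Int.fract ((u : ℝ) * α) = u * α + m := fract_of h6 (by linarith)
    show 0 < Int.fract ((u : ℝ) * α) ∧ Int.fract ((u : ℝ) * α) < d * α + md
    rw [h12]
    exact ⟨h10, by linarith⟩
  · rintro ⟨h1, h2⟩
    have e0 : Int.fract ((u : ℝ) * α) = u * α + ((-⌊(u : ℝ) * α⌋ : ℤ) : ℝ) := by
      rw [Int.fract]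
      push_cast
      ring
    have h3 : |(u : ℝ) * α + ((-⌊(u : ℝ) * α⌋ : ℤ) : ℝ)| = Int.fract ((u : ℝ) * α) := by
      rw [← e0, abs_of_pos h1]
    have e : ((d - u : ℤ) : ℝ) * α + ((md - (-⌊(u : ℝ) * α⌋) : ℤ) : ℝ) =
        (d * α + md) - Int.fract ((u : ℝ) * α) := by
      rw [Int.fract]
      push_cast
      ring
    refine ⟨⟨hA1 u _ (by rw [h3]; linarith), ?_⟩, ?_, ?_, ?_⟩
    · refine (hD1 u (-⌊(u : ℝ) * α⌋) (by rw [h3]; linarith)).2 ?_
      rw [← e0]
      exact h1.le
    · refine (hD1 (d - u) (md - (-⌊(u : ℝ) * α⌋)) ?_).2 ?_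
      · rw [e, abs_lt]
        constructor <;> linarith
      · rw [e]
        linarith
    · rintro rfl
      rw [Int.cast_zero, zero_mul, Int.fract_zero] at h1
      exact lt_irrefl _ h1
    · rintro rfl
      rw [hfd] at h2
      exact lt_irrefl _ h2

theorem D1_univ (h : DClass 𝒟) : D1 𝒟 Set.univ := by
  have := h.univ (ι := Unit)
  show 𝒟 _ _
  convert this using 1
  ext x
  simp

/-- the initial segments -/
theorem segments (hα : Irrational α) (h : DClass 𝒟) {d : ℤ} {ρ : ℝ}
    (hρ : Int.fract (d * α) = ρ) (hρ0 : 0 < ρ)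
    (hP : D1 𝒟 {u : ℤ | 0 < Int.fract (u * α) ∧ Int.fract (u * α) < ρ}) (i : ℕ) :
    D1 𝒟 {u : ℤ | Int.fract (u * α) < i * ρ} := by
  induction i with
  | zero =>
    have := h.empty (ι := Unit)
    show 𝒟 _ _
    convert this using 1
    ext x
    simp only [Set.mem_ofPred_eq, Set.mem_empty_iff_false, iff_false, not_lt, Nat.cast_zero,
      zero_mul]
    exact Int.fract_nonneg _
  | succ i ih =>
    by_cases h1 : 1 ≤ ((i + 1 : ℕ) : ℝ) * ρ
    · refine (D1_univ h).of_iff fun u => ?_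
      simp only [Set.mem_univ, true_iff]
      exact (Int.fract_lt_one _).trans_le h1
    · push Not at h1
      have h1' : (i : ℝ) * ρ + ρ < 1 := by
        push_cast at h1
        linarith
      have hi0 : 0 ≤ (i : ℝ) * ρ := by positivity
      have hid : Int.fract (((i * d : ℤ) : ℝ) * α) = i * ρ := by
        have e : ((i * d : ℤ) : ℝ) * α = i * ρ + ((i * ⌊(d : ℝ) * α⌋ : ℤ) : ℝ) := by
          rw [← hρ, Int.fract]
          push_cast
          ring
        rw [e, Int.fract_add_intCast, Int.fract_eq_self]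
        exact ⟨hi0, by linarith⟩
      have h2 := h.union ih (h.union (h.const (i * d)) (h.mem (κ := Unit) hP
        (p := fun x => x () + (-(i * d))) ((isIntForm_var _).add (isIntForm_const _))))
      show 𝒟 _ _
      convert h2 using 1
      ext x
      set u := x () with hu
      show Int.fract (u * α) < ((i + 1 : ℕ) : ℝ) * ρ ↔ Int.fract (u * α) < i * ρ ∨ (u = i * d ∨
        (0 < Int.fract (((u + (-(i * d)) : ℤ) : ℝ) * α) ∧
          Int.fract (((u + (-(i * d)) : ℤ) : ℝ) * α) < ρ))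
      have e2 : ((u + (-(i * d)) : ℤ) : ℝ) * α = (Int.fract (u * α) - i * ρ) +
          ((⌊(u : ℝ) * α⌋ - ⌊((i * d : ℤ) : ℝ) * α⌋ : ℤ) : ℝ) := by
        rw [← hid, Int.fract, Int.fract]
        push_cast
        ring
      rw [e2, Int.fract_add_intCast]
      have hφ0 := Int.fract_nonneg ((u : ℝ) * α)
      have hφ1 := Int.fract_lt_one ((u : ℝ) * α)
      push_cast
      constructor
      · intro h3
        rcases lt_or_ge (Int.fract ((u : ℝ) * α)) (i * ρ) with h4 | h4
        · exact Or.inl h4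
        · right
          rcases h4.eq_or_lt with h5 | h5
          · left
            apply fract_inj hα
            rw [hid, h5]
          · right
            have : Int.fract (Int.fract ((u : ℝ) * α) - i * ρ) =
                Int.fract ((u : ℝ) * α) - i * ρ := by
              rw [Int.fract_eq_self]
              constructor <;> linarith
            rw [this]
            constructor <;> linarith
      · rintro (h3 | h3 | ⟨h3, h4⟩)
        · linarith
        · rw [h3, hid]
          linarith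
        · by_contra h5
          push Not at h5
          have h6 : Int.fract (Int.fract ((u : ℝ) * α) - i * ρ) =
              Int.fract ((u : ℝ) * α) - i * ρ := by
            rw [Int.fract_eq_self]
            constructor <;> linarith
          rw [h6] at h4
          linarith

/-- the order of the fractional parts -/
theorem order_def (hα : Irrational α) (h : DClass 𝒟) {d : ℤ} {ρ : ℝ}
    (hρ : Int.fract (d * α) = ρ) (hρ0 : 0 < ρ) (hρ1 : ρ < 1 / 2)
    (hP : D1 𝒟 {u : ℤ | 0 < Int.fract (u * α) ∧ Int.fract (u * α) < ρ}) :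
    𝒟 (Fin 2) {x | Int.fract (x 0 * α) < Int.fract (x 1 * α)} := by
  classical
  obtain ⟨K, hK⟩ := exists_nat_gt (1 / ρ)
  have hK' : 1 < K * ρ := by
    rw [div_lt_iff₀ hρ0] at hK
    exact hK
  have hseg := segments hα h hρ hρ0 hP
  have hm : ∀ (i : ℕ) (j : Fin 2), 𝒟 (Fin 2) {x | Int.fract (x j * α) < i * ρ} := fun i j =>
    h.mem (κ := Fin 2) (hseg i) (p := fun x => x j) (isIntForm_var j)
  have h1 := h.biUnion (ι := Fin 2) (Finset.range (K + 1)) (s := fun i =>
    {x | Int.fract (x 0 * α) < i * ρ} ∩ {x | Int.fract (x 1 * α) < i * ρ}ᶜ)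
    fun i _ => h.inter (hm i 0) (h.compl (hm i 1))
  have h2 := h.biInter (ι := Fin 2) (Finset.range (K + 1)) (s := fun i =>
    {x | x ∈ {x : Fin 2 → ℤ | Int.fract (x 0 * α) < i * ρ} →
      x ∈ {x : Fin 2 → ℤ | Int.fract (x 1 * α) < i * ρ}} ∩
    {x | x ∈ {x : Fin 2 → ℤ | Int.fract (x 1 * α) < i * ρ} →
      x ∈ {x : Fin 2 → ℤ | Int.fract (x 0 * α) < i * ρ}})
    fun i _ => h.inter (h.imp (hm i 0) (hm i 1)) (h.imp (hm i 1) (hm i 0))
  have h3 := h.mem (κ := Fin 2) hP (p := fun x => x 1 + (-1) * x 0)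
    ((isIntForm_var _).add ((isIntForm_var _).smul _))
  have h4 := h.union h1 (h.inter h3 h2)
  convert h4 using 1
  ext x
  set u := x 0 with hu
  set v := x 1 with hv
  show Int.fract (u * α) < Int.fract (v * α) ↔
    (∃ i ∈ Finset.range (K + 1), Int.fract (u * α) < i * ρ ∧ ¬ Int.fract (v * α) < i * ρ) ∨
    ((0 < Int.fract (((v + (-1) * u : ℤ) : ℝ) * α) ∧
      Int.fract (((v + (-1) * u : ℤ) : ℝ) * α) < ρ) ∧
      ∀ i ∈ Finset.range (K + 1), (Int.fract (u * α) < i * ρ → Int.fract (v * α) < i * ρ) ∧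
        (Int.fract (v * α) < i * ρ → Int.fract (u * α) < i * ρ))
  have e : ((v + (-1) * u : ℤ) : ℝ) * α = (Int.fract (v * α) - Int.fract (u * α)) +
      ((⌊(v : ℝ) * α⌋ - ⌊(u : ℝ) * α⌋ : ℤ) : ℝ) := by
    rw [Int.fract, Int.fract]
    push_cast
    ring
  rw [e, Int.fract_add_intCast]
  have hu0 := Int.fract_nonneg ((u : ℝ) * α)
  have hu1 := Int.fract_lt_one ((u : ℝ) * α)
  have hv0 := Int.fract_nonneg ((v : ℝ) * α)
  have hv1 := Int.fract_lt_one ((v : ℝ) * α)
  -- the cell of `u`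
  obtain ⟨i, hi1, hi2⟩ : ∃ i : ℕ, i * ρ ≤ Int.fract ((u : ℝ) * α) ∧
      Int.fract ((u : ℝ) * α) < ((i + 1 : ℕ) : ℝ) * ρ := by
    refine ⟨⌊Int.fract ((u : ℝ) * α) / ρ⌋₊, ?_, ?_⟩
    · rw [← le_div_iff₀ hρ0]
      exact Nat.floor_le (by positivity)
    · rw [← div_lt_iff₀ hρ0]
      push_cast
      exact Nat.lt_floor_add_one _
  have hiK : i < K := by
    by_contra hcon
    push Not at hcon
    have : (K : ℝ) ≤ i := by exact_mod_cast hcon
    nlinarith
  have hi2' : Int.fract ((u : ℝ) * α) < i * ρ + ρ := by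
    push_cast at hi2
    linarith
  constructor
  · intro hlt
    by_cases hsepa : ∃ i ∈ Finset.range (K + 1),
        Int.fract (u * α) < i * ρ ∧ ¬ Int.fract (v * α) < i * ρ
    · exact Or.inl hsepa
    · right
      push Not at hsepa
      have h5 := hsepa (i + 1) (by rw [Finset.mem_range]; omega) hi2
      push_cast at h5
      have h6 : Int.fract (Int.fract ((v : ℝ) * α) - Int.fract ((u : ℝ) * α)) =
          Int.fract ((v : ℝ) * α) - Int.fract ((u : ℝ) * α) := by
        rw [Int.fract_eq_self]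
        constructor <;> linarith
      rw [h6]
      exact ⟨⟨by linarith, by linarith⟩, fun j hj => ⟨hsepa j hj, fun h7 => hlt.trans h7⟩⟩
  · rintro (⟨j, -, h5, h6⟩ | ⟨⟨h5, h6⟩, h7⟩)
    · push Not at h6
      linarith
    · have h8 := (h7 (i + 1) (by rw [Finset.mem_range]; omega)).1 hi2
      push_cast at h8
      have h9 : (i : ℝ) * ρ ≤ Int.fract ((v : ℝ) * α) := by
        by_contra hcon
        push Not at hcon
        have := (h7 i (by rw [Finset.mem_range]; omega)).2 hcon
        linarith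
      by_contra hcon
      push Not at hcon
      rcases hcon.eq_or_lt with h10 | h10
      · rw [h10, sub_self, Int.fract_zero] at h5
        exact lt_irrefl _ h5
      · have h11 : Int.fract (Int.fract ((v : ℝ) * α) - Int.fract ((u : ℝ) * α)) =
            Int.fract ((v : ℝ) * α) - Int.fract ((u : ℝ) * α) + ((1 : ℤ) : ℝ) := by
          apply fract_of
          · push_cast
            linarith
          · push_cast
            linarith
        rw [h11] at h6
        push_cast at h6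
        linarith

/-- **step B** -/
theorem stepB (hα : Irrational α) (h : DClass 𝒟) (hf : StepFn f)
    (hY : D1 𝒟 {z : ℤ | f (z * α)}) : 𝒟 (Fin 3) {x | Cyc α (x 0) (x 1) (x 2)} := by
  obtain ⟨d, hd0, hd1, hP⟩ := window_zero hα h hf hY
  have hlt := order_def hα h rfl hd0 hd1 hP
  have h01 := h.reindex (κ := Fin 3) ![0, 1] hlt
  have h12 := h.reindex (κ := Fin 3) ![1, 2] hlt
  have h20 := h.reindex (κ := Fin 3) ![2, 0] hlt
  exact h.union (h.inter h01 h12) (h.union (h.inter h12 h20) (h.inter h20 h01))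

end Pool.Agent.R612.IS
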