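import Pool.Agent.R612.IS.StepC

/-!
Step functions from tame unary sets, and the dichotomy.
-/

set_option autoImplicit false

namespace Pool.Agent.R612.IS

open SignType Pool.Agent.R612.CO

variable {α : ℝ} {𝒟 : ∀ ι : Type, Set (ι → ℤ) → Prop}

theorem sign_right (k c x : ℝ) : ∃ ε > 0, ∃ σ : SignType, ∀ ξ, x < ξ → ξ < x + ε →
    sign (k * ξ + c) = σ := by
  have hk : 0 < |k| + 1 := by positivity
  rcases lt_trichotomy (k * x + c) 0 with h | h | h
  · refine ⟨-(k * x + c) / (|k| + 1), div_pos (by linarith) hk, -1, fun ξ h1 h2 => ?_⟩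
    rw [sign_eq_neg_one_iff]
    have h3 : (ξ - x) * (|k| + 1) < -(k * x + c) := by
      rw [← lt_div_iff₀ hk]
      linarith
    have h4 : k * (ξ - x) ≤ |k| * (ξ - x) :=
      mul_le_mul_of_nonneg_right (le_abs_self k) (by linarith)
    nlinarith
  · refine ⟨1, one_pos, sign k, fun ξ h1 h2 => ?_⟩
    have e : k * ξ + c = k * (ξ - x) := by linarith
    rw [e, sign_mul, sign_pos (sub_pos.2 h1), mul_one]
  · refine ⟨(k * x + c) / (|k| + 1), div_pos h hk, 1, fun ξ h1 h2 => ?_⟩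
    rw [sign_eq_one_iff]
    have h3 : (ξ - x) * (|k| + 1) < k * x + c := by
      rw [← lt_div_iff₀ hk]
      linarith
    have h4 : -(|k| * (ξ - x)) ≤ k * (ξ - x) := by
      have := mul_le_mul_of_nonneg_right (neg_abs_le k) (show 0 ≤ ξ - x by linarith)
      linarith
    nlinarith

theorem sign_left (k c x : ℝ) : ∃ ε > 0, ∃ σ : SignType, ∀ ξ, x - ε < ξ → ξ < x →
    sign (k * ξ + c) = σ := by
  obtain ⟨ε, hε, σ, h⟩ := sign_right (-k) c (-x)
  refine ⟨ε, hε, σ, fun ξ h1 h2 => ?_⟩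
  have := h (-ξ) (by linarith) (by linarith)
  rwa [neg_mul_neg] at this

/-- a set of integers with one-sided limits everywhere -/
structure Sided (α : ℝ) (Y : Set ℤ) : Prop where
  right : ∀ x : ℝ, ∃ ε > 0, ∃ b : Prop, ∀ z m : ℤ, x < z * α + m → z * α + m < x + ε → (z ∈ Y ↔ b)
  left : ∀ x : ℝ, ∃ ε > 0, ∃ b : Prop, ∀ z m : ℤ, x - ε < z * α + m → z * α + m < x → (z ∈ Y ↔ b)

theorem exists_min {X : Type} {B : Set X} (hB : B.Finite) {ε : X → ℝ} (hε : ∀ a ∈ B, 0 < ε a) :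
    ∃ δ > 0, ∀ a ∈ B, δ ≤ ε a := by
  rcases B.eq_empty_or_nonempty with rfl | hne
  · exact ⟨1, one_pos, by simp⟩
  · obtain ⟨a, ha, ha'⟩ := Set.exists_min_image B ε hB hne
    exact ⟨ε a, hε a ha, ha'⟩

theorem sided_of_signs {Y : Set ℤ} {B : Set (ℝ × ℝ)} (hB : B.Finite)
    (h : ∀ z z' : ℤ, (∀ a ∈ B, sign (a.1 * Int.fract (z * α) + a.2) =
      sign (a.1 * Int.fract (z' * α) + a.2)) → z ∈ Y → z' ∈ Y) : Sided α Y := by
  classical
  constructor
  · intro x
    set x₀ := Int.fract x with hx₀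
    have h1 : ∀ a : ℝ × ℝ, ∃ ε > 0, ∃ σ : SignType, ∀ ξ, x₀ < ξ → ξ < x₀ + ε →
      sign (a.1 * ξ + a.2) = σ := fun a => sign_right a.1 a.2 x₀
    choose ε hε σ hσ using h1
    obtain ⟨δ, hδ, hδ'⟩ := exists_min hB (ε := ε) fun a _ => hε a
    have hx1 : x₀ < 1 := Int.fract_lt_one _
    have hx2 : 0 ≤ x₀ := Int.fract_nonneg _
    have hfr : ∀ z m : ℤ, x < z * α + m → z * α + m < x + min δ (1 - x₀) →
        x₀ < Int.fract (z * α) ∧ Int.fract (z * α) < x₀ + δ := by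
      intro z m h1 h2
      have h3 := min_le_left δ (1 - x₀)
      have h4 := min_le_right δ (1 - x₀)
      have hxx : x = x₀ + ⌊x⌋ := by
        rw [hx₀]
        exact (Int.fract_add_floor x).symm
      have h5 : Int.fract (z * α) = z * α + ((m - ⌊x⌋ : ℤ) : ℝ) := by
        apply fract_of
        · push_cast
          linarith
        · push_cast
          linarith
      rw [h5]
      push_cast
      constructor <;> linarith
    refine ⟨min δ (1 - x₀), lt_min hδ (by linarith),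
      ∃ z m : ℤ, (x < z * α + m ∧ z * α + m < x + min δ (1 - x₀)) ∧ z ∈ Y, fun z m h1 h2 => ?_⟩
    constructor
    · intro hz
      exact ⟨z, m, ⟨h1, h2⟩, hz⟩
    · rintro ⟨z', m', ⟨h1', h2'⟩, hz'⟩
      refine h z' z (fun a ha => ?_) hz'
      obtain ⟨h3, h4⟩ := hfr z m h1 h2
      obtain ⟨h3', h4'⟩ := hfr z' m' h1' h2'
      rw [hσ a _ h3 (h4.trans_le (by linarith [hδ' a ha])),
        hσ a _ h3' (h4'.trans_le (by linarith [hδ' a ha]))]
  · intro x
    set x₀ := x - (⌈x⌉ - 1) with hx₀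
    have h1 : ∀ a : ℝ × ℝ, ∃ ε > 0, ∃ σ : SignType, ∀ ξ, x₀ - ε < ξ → ξ < x₀ →
      sign (a.1 * ξ + a.2) = σ := fun a => sign_left a.1 a.2 x₀
    choose ε hε σ hσ using h1
    obtain ⟨δ, hδ, hδ'⟩ := exists_min hB (ε := ε) fun a _ => hε a
    have hx1 : x₀ ≤ 1 := by
      have := Int.le_ceil x
      linarith
    have hx2 : 0 < x₀ := by
      have := Int.ceil_lt_add_one x
      linarith
    have hfr : ∀ z m : ℤ, x - min δ x₀ < z * α + m → z * α + m < x →
        x₀ - δ < Int.fract (z * α) ∧ Int.fract (z * α) < x₀ := by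
      intro z m h1 h2
      have h3 := min_le_left δ x₀
      have h4 := min_le_right δ x₀
      have h5 : Int.fract (z * α) = z * α + ((m - (⌈x⌉ - 1) : ℤ) : ℝ) := by
        apply fract_of
        · push_cast
          linarith
        · push_cast
          linarith
      rw [h5]
      push_cast
      constructor <;> linarith
    refine ⟨min δ x₀, lt_min hδ hx2,
      ∃ z m : ℤ, (x - min δ x₀ < z * α + m ∧ z * α + m < x) ∧ z ∈ Y, fun z m h1 h2 => ?_⟩
    constructor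
    · intro hz
      exact ⟨z, m, ⟨h1, h2⟩, hz⟩
    · rintro ⟨z', m', ⟨h1', h2'⟩, hz'⟩
      refine h z' z (fun a ha => ?_) hz'
      obtain ⟨h3, h4⟩ := hfr z m h1 h2
      obtain ⟨h3', h4'⟩ := hfr z' m' h1' h2'
      rw [hσ a _ (lt_of_le_of_lt (by linarith [hδ' a ha]) h3) h4,
        hσ a _ (lt_of_le_of_lt (by linarith [hδ' a ha]) h3') h4']

/-- the value on the right -/
def RV (α : ℝ) (Y : Set ℤ) (x : ℝ) : Prop :=
  ∃ ε > 0, ∀ z m : ℤ, x < z * α + m → z * α + m < x + ε → z ∈ Y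

theorem rv_iff (hα : Irrational α) {Y : Set ℤ} {b : Prop} {x y : ℝ} (hxy : x < y)
    (h : ∀ z m : ℤ, x < z * α + m → z * α + m < y → (z ∈ Y ↔ b)) : RV α Y x ↔ b := by
  constructor
  · rintro ⟨ε, hε, h1⟩
    obtain ⟨z, m, hz1, hz2⟩ := dens hα (show x < min y (x + ε) from lt_min hxy (by linarith))
    exact (h z m hz1 (hz2.trans_le (min_le_left _ _))).1
      (h1 z m hz1 (hz2.trans_le (min_le_right _ _)))
  · intro hb
    exact ⟨y - x, by linarith, fun z m hz1 hz2 => (h z m hz1 (by linarith)).2 hb⟩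

theorem Sided.right' (hα : Irrational α) {Y : Set ℤ} (hY : Sided α Y) (x : ℝ) :
    ∃ ε > 0, (∀ y, x ≤ y → y < x + ε → (RV α Y y ↔ RV α Y x)) ∧
      ∀ z m : ℤ, x < z * α + m → z * α + m < x + ε → (z ∈ Y ↔ RV α Y x) := by
  obtain ⟨ε, hε, b, hb⟩ := hY.right x
  have hx : RV α Y x ↔ b := rv_iff hα (show x < x + ε by linarith) hb
  refine ⟨ε, hε, fun y h1 h2 => ?_, fun z m h1 h2 => ?_⟩
  · rw [hx]
    exact rv_iff hα h2 fun z m h3 h4 => hb z m (by linarith) h4
  · rw [hx]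
    exact hb z m h1 h2

theorem Sided.left' (hα : Irrational α) {Y : Set ℤ} (hY : Sided α Y) (x : ℝ) :
    ∃ ε > 0, ∃ b : Prop, (∀ y, x - ε < y → y < x → (RV α Y y ↔ b)) ∧
      ∀ z m : ℤ, x - ε < z * α + m → z * α + m < x → (z ∈ Y ↔ b) := by
  obtain ⟨ε, hε, b, hb⟩ := hY.left x
  exact ⟨ε, hε, b, fun y h1 h2 => rv_iff hα h2 fun z m h3 h4 => hb z m (by linarith) h4, hb⟩

theorem rv_per {Y : Set ℤ} (x : ℝ) (m : ℤ) : RV α Y (x + m) ↔ RV α Y x := by
  constructor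
  · rintro ⟨ε, hε, h⟩
    refine ⟨ε, hε, fun z k h1 h2 => h z (k + m) ?_ ?_⟩
    · push_cast
      linarith
    · push_cast
      linarith
  · rintro ⟨ε, hε, h⟩
    refine ⟨ε, hε, fun z k h1 h2 => h z (k - m) ?_ ?_⟩
    · push_cast
      linarith
    · push_cast
      linarith

theorem Sided.stepFn (hα : Irrational α) {Y : Set ℤ} (hY : Sided α Y) (hmix : Mixed α Y) :
    StepFn (RV α Y) where
  per := rv_per
  right := fun x => by
    obtain ⟨ε, hε, h, -⟩ := hY.right' hα x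
    exact ⟨ε, hε, h⟩
  left := fun x => by
    obtain ⟨ε, hε, b, h, -⟩ := hY.left' hα x
    exact ⟨ε, hε, b, h⟩
  nonconst := by
    obtain ⟨p, q, p', q', ⟨h1, h2, h3⟩, ⟨h1', h2', h3'⟩, h4, h4'⟩ := hmix
    refine ⟨p, p', ?_, ?_⟩
    · refine (rv_iff hα h2 (b := True) fun z m h5 h6 => ?_).2 trivial
      have h7 : Int.fract ((z : ℝ) * α) = z * α + m := fract_of (by linarith) (by linarith)
      simp only [iff_true]
      refine h4 z ?_ ?_ <;> rw [h7] <;> assumption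
    · intro hc
      refine (rv_iff hα h2' (b := False) fun z m h5 h6 => ?_).1 hc
      have h7 : Int.fract ((z : ℝ) * α) = z * α + m := fract_of (by linarith) (by linarith)
      simp only [iff_false]
      refine h4' z ?_ ?_ <;> rw [h7] <;> assumption

/-- the set and its right values differ in finitely many points -/
theorem Sided.finite (hα : Irrational α) {Y : Set ℤ} (hY : Sided α Y) :
    {z : ℤ | ¬ (z ∈ Y ↔ RV α Y (z * α))}.Finite := by
  classical
  have hloc : ∀ x : ℝ, ∃ ε > 0, ∀ z m : ℤ, |z * α + m - x| < ε → z * α + m ≠ x →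
      (z ∈ Y ↔ RV α Y (z * α)) := by
    intro x
    obtain ⟨ε₁, h1, h2, h3⟩ := hY.right' hα x
    obtain ⟨ε₂, h4, b, h5, h6⟩ := hY.left' hα x
    refine ⟨min ε₁ ε₂, lt_min h1 h4, fun z m h7 h8 => ?_⟩
    have h9 := min_le_left ε₁ ε₂
    have h10 := min_le_right ε₁ ε₂
    rw [abs_lt] at h7
    rw [← rv_per ((z : ℝ) * α) m]
    rcases lt_or_gt_of_ne h8 with h | h
    · rw [h6 z m (by linarith) h, h5 _ (by linarith) h]
    · rw [h3 z m h (by linarith), h2 _ h.le (by linarith)]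
  choose ε hε hloc using hloc
  obtain ⟨T, -, hT⟩ := (isCompact_Icc (a := (0 : ℝ)) (b := 1)).elim_nhds_subcover
    (fun x => Metric.ball x (ε x)) fun x _ => Metric.ball_mem_nhds x (hε x)
  refine Set.Finite.of_finite_image (f := fun z : ℤ => Int.fract ((z : ℝ) * α)) ?_
    fun u _ v _ h => fract_inj hα h
  refine (T.finite_toSet).subset ?_
  rintro _ ⟨z, hz, rfl⟩
  obtain ⟨x, hx, hx'⟩ := Set.mem_iUnion₂.1
    (hT ⟨Int.fract_nonneg ((z : ℝ) * α), (Int.fract_lt_one _).le⟩)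
  rw [Metric.mem_ball, Real.dist_eq] at hx'
  have e : Int.fract ((z : ℝ) * α) = z * α + ((-⌊(z : ℝ) * α⌋ : ℤ) : ℝ) := by
    rw [Int.fract]
    push_cast
    ring
  by_contra hcon
  apply hz
  refine hloc x z (-⌊(z : ℝ) * α⌋) (by rw [← e]; exact hx') fun h => ?_
  rw [← e] at h
  apply hcon
  show Int.fract ((z : ℝ) * α) ∈ (T : Set ℝ)
  rw [h]
  exact hx

theorem D1_finite (h : DClass 𝒟) {B : Set ℤ} (hB : B.Finite) : D1 𝒟 B := by
  classical
  have := h.biUnion (ι := Unit) hB.toFinset (s := fun c => {x | x () = c}) fun c _ => h.const c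
  show 𝒟 _ _
  convert this using 1
  ext x
  simp

theorem Sided.D1 (hα : Irrational α) (h : DClass 𝒟) {Y : Set ℤ} (hY : Sided α Y)
    (hD : D1 𝒟 Y) : D1 𝒟 {z : ℤ | RV α Y (z * α)} := by
  have h1 := D1_finite h (hY.finite hα)
  have h2 := h.union (h.inter hD (h.compl h1)) (h.inter (h.compl hD) h1)
  show 𝒟 _ _
  convert h2 using 1
  ext x
  show RV α Y _ ↔ (x () ∈ Y ∧ ¬ ¬ (x () ∈ Y ↔ RV α Y _)) ∨ (¬ x () ∈ Y ∧ ¬ (x () ∈ Y ↔ RV α Y _))
  tauto

/-- **the dichotomy** -/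
theorem dichotomy (hα : Irrational α) (h : DClass 𝒟)
    (htame : ∀ s : Set (Unit → ℤ), 𝒟 _ s → Tame (fun _ : Unit => α) s)
    {F : Set ℤ} (hF : D1 𝒟 F) (hmix : Mixed α F) : 𝒟 (Fin 3) {x | Cyc α (x 0) (x 1) (x 2)} := by
  have h1 := (htame _ hF).reindex (κ := Option Empty) fun _ => none
  obtain ⟨M, hM, AA, hfin, -, -, -, hcell⟩ := cells h1
  have hMr : (0 : ℝ) < M := by exact_mod_cast hM
  have hYs : Sided α {z : ℤ | M * z ∈ F} := by
    refine sided_of_signs (((hfin 0).image fun a =>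
      ((a.1 : ℝ), a.2 fun i => (((Empty.elim i : ℤ)) : ℚ)))) ?_
    intro z z' hs hz
    have h2 := hcell 0 (fun i => Empty.elim i) z z' (fun a ha => hs _ ⟨a, ha, rfl⟩) (by
      show (M : ℤ) * z + 0 ∈ F
      rw [add_zero]
      exact hz)
    have h3 : (M : ℤ) * z' + 0 ∈ F := h2
    rw [add_zero] at h3
    exact h3
  have hD : D1 𝒟 {z : ℤ | M * z ∈ F} :=
    h.mem (κ := Unit) hF (p := fun x => M * x ()) ((isIntForm_var _).smul _)
  have hmix' : Mixed α {z : ℤ | M * z ∈ F} := by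
    obtain ⟨p, q, p', q', ⟨h1, h2, h3⟩, ⟨h1', h2', h3'⟩, h4, h4'⟩ := hmix
    have hq : ∀ q : ℝ, q ≤ 1 → q / M ≤ 1 := by
      intro q hq
      rw [div_le_one hMr]
      have : (1 : ℝ) ≤ M := by exact_mod_cast hM
      linarith
    have hfr : ∀ (z : ℤ) (p q : ℝ), 0 ≤ p → q ≤ 1 → p / M < Int.fract (z * α) →
        Int.fract (z * α) < q / M → Int.fract (((M * z : ℤ) : ℝ) * α) = M * Int.fract (z * α) := by
      intro z p q hp hq h5 h6
      rw [div_lt_iff₀ hMr] at h5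
      rw [lt_div_iff₀ hMr] at h6
      have e : ((M * z : ℤ) : ℝ) * α = M * Int.fract (z * α) + ((M * ⌊(z : ℝ) * α⌋ : ℤ) : ℝ) := by
        rw [Int.fract]
        push_cast
        ring
      rw [e, Int.fract_add_intCast, Int.fract_eq_self]
      constructor <;> linarith
    refine ⟨p / M, q / M, p' / M, q' / M, ⟨by positivity, by gcongr, hq q h3⟩,
      ⟨by positivity, by gcongr, hq q' h3'⟩, fun z h5 h6 => ?_, fun z h5 h6 => ?_⟩
    · have h7 := hfr z p q h1 h3 h5 h6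
      rw [div_lt_iff₀ hMr] at h5
      rw [lt_div_iff₀ hMr] at h6
      refine h4 (M * z) ?_ ?_ <;> rw [h7] <;> linarith
    · have h7 := hfr z p' q' h1' h3' h5 h6
      rw [div_lt_iff₀ hMr] at h5
      rw [lt_div_iff₀ hMr] at h6
      refine h4' (M * z) ?_ ?_ <;> rw [h7] <;> linarith
  exact stepB hα h (hYs.stepFn hα hmix') (hYs.D1 hα h hD)

end Pool.Agent.R612.IS
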